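import Pool.Agent.X41.Inf3.Jordan

set_option autoImplicit false

/-!
# Commutative algebras of the form `C ⊕ U* ⊕ K` satisfying the Jacobi identity
-/

namespace Pool.Agent.X41.Alt3

universe u

/-- The data: a vector space of letters `V` acting on `U` by anticommuting operators and a
trilinear form on `U`. -/
structure Dat (K V U : Type u) [Field K] [AddCommGroup V] [Module K V] [AddCommGroup U]
    [Module K U] where
  act : V →ₗ[K] U →ₗ[K] U
  T : U →ₗ[K] U →ₗ[K] U →ₗ[K] K
  C : Submodule K (V × U)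
  anti : ∀ l l' u, act l (act l' u) + act l' (act l u) = 0
  symm : ∀ u v w, T u v w = T v u w
  rel : ∀ l u v w, T (act l u) v w + T u (act l v) w = T u v (act l w)
  jac : ∀ x ∈ C, ∀ y ∈ C, ∀ z ∈ C, T x.2 y.2 z.2 + T y.2 z.2 x.2 + T z.2 x.2 y.2 = 0
  mulC : ∀ x ∈ C, ∀ y ∈ C, ((0, act x.1 y.2 + act y.1 x.2) : V × U) ∈ C

variable {K V U : Type u} [Field K] [AddCommGroup V] [Module K V] [AddCommGroup U]
    [Module K U]

/-- The algebra of the data. -/
def Alg (D : Dat K V U) : Type u := D.C × (U →ₗ[K] K) × K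

variable (D : Dat K V U)

instance : AddCommGroup (Alg D) := inferInstanceAs (AddCommGroup (D.C × (U →ₗ[K] K) × K))
instance : Module K (Alg D) := inferInstanceAs (Module K (D.C × (U →ₗ[K] K) × K))

variable {D}

/-- letter part -/
def Alg.lv (x : Alg D) : V := x.1.1.1
/-- `U`-part -/
def Alg.th (x : Alg D) : U := x.1.1.2
/-- dual part -/
def Alg.ph (x : Alg D) : U →ₗ[K] K := x.2.1
/-- scalar part -/
def Alg.ce (x : Alg D) : K := x.2.2

lemma Alg.mem (x : Alg D) : (x.lv, x.th) ∈ D.C := x.1.2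

@[ext] lemma Alg.ext {x y : Alg D} (h1 : x.lv = y.lv) (h2 : x.th = y.th) (h3 : x.ph = y.ph)
    (h4 : x.ce = y.ce) : x = y :=
  Prod.ext (Subtype.ext (Prod.ext h1 h2)) (Prod.ext h3 h4)

instance : Mul (Alg D) :=
  ⟨fun x y => (⟨(0, D.act x.lv y.th + D.act y.lv x.th), D.mulC _ x.mem _ y.mem⟩,
    D.T x.th y.th - x.ph ∘ₗ D.act y.lv - y.ph ∘ₗ D.act x.lv, x.ph y.th + y.ph x.th)⟩

@[simp] lemma Alg.mul_lv (x y : Alg D) : (x * y).lv = 0 := rfl
@[simp] lemma Alg.mul_th (x y : Alg D) : (x * y).th = D.act x.lv y.th + D.act y.lv x.th := rfl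
@[simp] lemma Alg.mul_ph (x y : Alg D) :
    (x * y).ph = D.T x.th y.th - x.ph ∘ₗ D.act y.lv - y.ph ∘ₗ D.act x.lv := rfl
@[simp] lemma Alg.mul_ce (x y : Alg D) : (x * y).ce = x.ph y.th + y.ph x.th := rfl
@[simp] lemma Alg.add_lv (x y : Alg D) : (x + y).lv = x.lv + y.lv := rfl
@[simp] lemma Alg.add_th (x y : Alg D) : (x + y).th = x.th + y.th := rfl
@[simp] lemma Alg.add_ph (x y : Alg D) : (x + y).ph = x.ph + y.ph := rfl
@[simp] lemma Alg.add_ce (x y : Alg D) : (x + y).ce = x.ce + y.ce := rfl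
@[simp] lemma Alg.zero_lv : (0 : Alg D).lv = 0 := rfl
@[simp] lemma Alg.zero_th : (0 : Alg D).th = 0 := rfl
@[simp] lemma Alg.zero_ph : (0 : Alg D).ph = 0 := rfl
@[simp] lemma Alg.zero_ce : (0 : Alg D).ce = 0 := rfl
@[simp] lemma Alg.smul_lv (c : K) (x : Alg D) : (c • x).lv = c • x.lv := rfl
@[simp] lemma Alg.smul_th (c : K) (x : Alg D) : (c • x).th = c • x.th := rfl
@[simp] lemma Alg.smul_ph (c : K) (x : Alg D) : (c • x).ph = c • x.ph := rfl
@[simp] lemma Alg.smul_ce (c : K) (x : Alg D) : (c • x).ce = c * x.ce := rfl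

instance : NonUnitalNonAssocRing (Alg D) where
  left_distrib x y z := by
    ext
    · simp
    · simp only [Alg.mul_th, Alg.add_lv, Alg.add_th, map_add, LinearMap.add_apply]; abel
    · simp only [Alg.mul_ph, Alg.add_lv, Alg.add_th, Alg.add_ph, map_add, LinearMap.add_apply,
        LinearMap.sub_apply, LinearMap.comp_apply]; ring
    · simp only [Alg.mul_ce, Alg.add_th, Alg.add_ph, Alg.add_ce, map_add, LinearMap.add_apply]; ring
  right_distrib x y z := by
    ext
    · simp
    · simp only [Alg.mul_th, Alg.add_lv, Alg.add_th, map_add, LinearMap.add_apply]; abel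
    · simp only [Alg.mul_ph, Alg.add_lv, Alg.add_th, Alg.add_ph, map_add, LinearMap.add_apply,
        LinearMap.sub_apply, LinearMap.comp_apply]; ring
    · simp only [Alg.mul_ce, Alg.add_th, Alg.add_ph, Alg.add_ce, map_add, LinearMap.add_apply]; ring
  zero_mul x := by ext <;> simp
  mul_zero x := by ext <;> simp

instance : IsScalarTower K (Alg D) (Alg D) where
  smul_assoc c x y := by
    ext
    · simp
    · simp [smul_eq_mul]
    · simp only [smul_eq_mul, Alg.mul_ph, Alg.smul_lv, Alg.smul_th, Alg.smul_ph, map_smul,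
        LinearMap.smul_apply, LinearMap.sub_apply, LinearMap.comp_apply]; ring
    · simp only [smul_eq_mul, Alg.mul_ce, Alg.smul_th, Alg.smul_ph, Alg.smul_ce, map_smul,
        LinearMap.smul_apply]; ring

instance : SMulCommClass K (Alg D) (Alg D) where
  smul_comm c x y := by
    ext
    · simp
    · simp [smul_eq_mul]
    · simp only [smul_eq_mul, Alg.mul_ph, Alg.smul_lv, Alg.smul_th, Alg.smul_ph, map_smul,
        LinearMap.smul_apply, LinearMap.sub_apply, LinearMap.comp_apply]; ring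
    · simp only [smul_eq_mul, Alg.mul_ce, Alg.smul_th, Alg.smul_ph, Alg.smul_ce, map_smul,
        LinearMap.smul_apply]; ring

lemma Alg.comm (x y : Alg D) : x * y = y * x := by
  ext w
  · simp
  · simp only [Alg.mul_th]; abel
  · simp only [Alg.mul_ph, LinearMap.sub_apply, LinearMap.comp_apply]
    rw [D.symm]; ring
  · simp only [Alg.mul_ce]; ring

lemma Alg.jacobi (x y z : Alg D) : (x * y) * z + (y * z) * x + (z * x) * y = 0 := by
  ext w
  · simp
  · simp only [Alg.mul_th, Alg.mul_lv, Alg.add_th, Alg.zero_th, map_zero, LinearMap.zero_apply,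
      zero_add, map_add]
    have h1 := D.anti x.lv y.lv z.th
    have h2 := D.anti y.lv z.lv x.th
    have h3 := D.anti z.lv x.lv y.th
    have : D.act z.lv (D.act x.lv y.th) + D.act z.lv (D.act y.lv x.th) +
        (D.act x.lv (D.act y.lv z.th) + D.act x.lv (D.act z.lv y.th)) +
        (D.act y.lv (D.act z.lv x.th) + D.act y.lv (D.act x.lv z.th)) =
        (D.act x.lv (D.act y.lv z.th) + D.act y.lv (D.act x.lv z.th)) +
        (D.act y.lv (D.act z.lv x.th) + D.act z.lv (D.act y.lv x.th)) +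
        (D.act z.lv (D.act x.lv y.th) + D.act x.lv (D.act z.lv y.th)) := by abel
    rw [this, h1, h2, h3]; simp
  · simp only [Alg.mul_th, Alg.mul_lv, Alg.mul_ph, Alg.add_ph, Alg.zero_ph, map_zero,
      LinearMap.zero_apply, map_add, LinearMap.add_apply, LinearMap.sub_apply,
      LinearMap.comp_apply]
    have r1 := D.rel x.lv y.th z.th w
    have r2 := D.rel y.lv z.th x.th w
    have r3 := D.rel z.lv x.th y.th w
    have s1 := D.symm y.th (D.act x.lv z.th) w
    have s2 := D.symm z.th (D.act y.lv x.th) w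
    have s3 := D.symm x.th (D.act z.lv y.th) w
    have a1 := congrArg x.ph (D.anti y.lv z.lv w)
    have a2 := congrArg y.ph (D.anti z.lv x.lv w)
    have a3 := congrArg z.ph (D.anti x.lv y.lv w)
    simp only [map_add, map_zero] at a1 a2 a3
    linear_combination r1 + r2 + r3 - s1 - s2 - s3 + a1 + a2 + a3
  · simp only [Alg.mul_th, Alg.mul_ph, Alg.mul_ce, Alg.add_ce, Alg.zero_ce, map_add,
      LinearMap.sub_apply, LinearMap.comp_apply]
    have j := D.jac _ x.mem _ y.mem _ z.mem
    simp only at j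
    linear_combination j

lemma three_smul_eq [CharP K 3] {M : Type*} [AddCommGroup M] [Module K M] (x : M) :
    x + x + x = 0 := by
  have h3 : (3 : K) = 0 := by exact_mod_cast CharP.cast_eq_zero K 3
  have : x + x + x = (3 : K) • x := by
    rw [show (3 : K) = 1 + 1 + 1 by norm_num, add_smul, add_smul, one_smul]
  rw [this, h3, zero_smul]

/-- `B` is alternative: `(x, x, y) = 0` and `(y, x, x) = 0`. -/
def IsAlternative (B : Type u) [NonUnitalNonAssocRing B] : Prop :=
  (∀ x y : B, (x * x) * y - x * (x * y) = 0) ∧ ∀ x y : B, (y * x) * x - y * (x * x) = 0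

lemma alt_of_jacobi [CharP K 3] {B : Type u} [NonUnitalNonAssocRing B] [Module K B]
    (hc : ∀ x y : B, x * y = y * x)
    (hj : ∀ x y z : B, (x * y) * z + (y * z) * x + (z * x) * y = 0) : IsAlternative B := by
  have key : ∀ x y : B, (x * x) * y = x * (x * y) := by
    intro x y
    have h := hj x x y
    rw [hc y x, hc (x * y) x] at h
    have h3 := three_smul_eq (K := K) (x * (x * y))
    have : (x * x) * y - x * (x * y) = ((x * x) * y + x * (x * y) + x * (x * y)) -
      (x * (x * y) + x * (x * y) + x * (x * y)) := by abel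
    rw [← sub_eq_zero, this, h, h3, sub_zero]
  refine ⟨fun x y => by rw [key, sub_self], fun x y => ?_⟩
  rw [hc y x, hc (x * y) x, hc y (x * x), key, sub_self]

/-- products of four, four elements -/
lemma Alg.solv (a b c d e f g h : Alg D) : ((a * b) * (c * d)) * ((e * f) * (g * h)) = 0 := by
  ext w
  · simp
  · simp
  · simp
  · simp

/-- the value of `(p q) r` for elements without letter part -/
lemma Alg.triple (p q r : Alg D) (hp : p.lv = 0) (hq : q.lv = 0) (hr : r.lv = 0) :
    ((p * q) * r).lv = 0 ∧ ((p * q) * r).th = 0 ∧ ((p * q) * r).ph = 0 ∧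
      ((p * q) * r).ce = D.T p.th q.th r.th := by
  refine ⟨rfl, ?_, ?_, ?_⟩
  · simp [hp, hq, hr]
  · simp [hp, hq, hr]
  · simp [hp, hq]

lemma Alg.sum_lv {ι : Type*} (s : Finset ι) (f : ι → Alg D) :
    (∑ i ∈ s, f i).lv = ∑ i ∈ s, (f i).lv := by
  classical
  induction s using Finset.induction_on with
  | empty => rfl
  | insert a s h ih => rw [Finset.sum_insert h, Finset.sum_insert h, Alg.add_lv, ih]

lemma Alg.sum_th {ι : Type*} (s : Finset ι) (f : ι → Alg D) :
    (∑ i ∈ s, f i).th = ∑ i ∈ s, (f i).th := by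
  classical
  induction s using Finset.induction_on with
  | empty => rfl
  | insert a s h ih => rw [Finset.sum_insert h, Finset.sum_insert h, Alg.add_th, ih]

lemma Alg.sum_ph {ι : Type*} (s : Finset ι) (f : ι → Alg D) :
    (∑ i ∈ s, f i).ph = ∑ i ∈ s, (f i).ph := by
  classical
  induction s using Finset.induction_on with
  | empty => rfl
  | insert a s h ih => rw [Finset.sum_insert h, Finset.sum_insert h, Alg.add_ph, ih]

lemma Alg.sum_ce {ι : Type*} (s : Finset ι) (f : ι → Alg D) :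
    (∑ i ∈ s, f i).ce = ∑ i ∈ s, (f i).ce := by
  classical
  induction s using Finset.induction_on with
  | empty => rfl
  | insert a s h ih => rw [Finset.sum_insert h, Finset.sum_insert h, Alg.add_ce, ih]

/-- `x` has only a scalar part, equal to `c` -/
def OnlyCe (x : Alg D) (c : K) : Prop := x.lv = 0 ∧ x.th = 0 ∧ x.ph = 0 ∧ x.ce = c

lemma onlyCe_triple (p q r : Alg D) (hp : p.lv = 0) (hq : q.lv = 0) (hr : r.lv = 0) :
    OnlyCe ((p * q) * r) (D.T p.th q.th r.th) := Alg.triple p q r hp hq hr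

lemma OnlyCe.smul {x : Alg D} {c : K} (h : OnlyCe x c) (a : K) : OnlyCe (a • x) (a * c) := by
  obtain ⟨h1, h2, h3, h4⟩ := h
  exact ⟨by rw [Alg.smul_lv, h1, smul_zero], by rw [Alg.smul_th, h2, smul_zero],
    by rw [Alg.smul_ph, h3, smul_zero], by rw [Alg.smul_ce, h4]⟩

lemma OnlyCe.sum {ι : Type*} (s : Finset ι) {f : ι → Alg D} {c : ι → K}
    (h : ∀ i, OnlyCe (f i) (c i)) : OnlyCe (∑ i ∈ s, f i) (∑ i ∈ s, c i) := by
  refine ⟨?_, ?_, ?_, ?_⟩
  · rw [Alg.sum_lv]; exact Finset.sum_eq_zero fun i _ => (h i).1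
  · rw [Alg.sum_th]; exact Finset.sum_eq_zero fun i _ => (h i).2.1
  · rw [Alg.sum_ph]; exact Finset.sum_eq_zero fun i _ => (h i).2.2.1
  · rw [Alg.sum_ce]; exact Finset.sum_congr rfl fun i _ => (h i).2.2.2

lemma OnlyCe.eq_zero {x : Alg D} {c : K} (h : OnlyCe x c) (hc : c = 0) : x = 0 := by
  obtain ⟨h1, h2, h3, h4⟩ := h
  exact Alg.ext h1 h2 h3 (h4.trans hc)

lemma OnlyCe.zero_of {x : Alg D} {c : K} (h : OnlyCe x c) (hx : x = 0) : c = 0 := by
  rw [← h.2.2.2, hx]; rfl

end Pool.Agent.X41.Alt3
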