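import Mathlib

set_option autoImplicit false

/-!
# Even and odd elements of the exterior algebra in characteristic three
-/

namespace Pool.Agent.X41.Alt3

universe u

variable (K : Type u) [Field K] (N : ℕ)

/-- the exterior algebra on `K^N` -/
abbrev Lam := ExteriorAlgebra K (Fin N → K)

variable {K N}

/-- the parity automorphism -/
noncomputable def eps : Lam K N →ₐ[K] Lam K N := CliffordAlgebra.involute

/-- the generator -/
noncomputable def io : (Fin N → K) →ₗ[K] Lam K N := ExteriorAlgebra.ι K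

lemma eps_io (m : Fin N → K) : eps (io m) = -io m := CliffordAlgebra.involute_ι m

lemma io_sq (m : Fin N → K) : io m * io m = 0 := ExteriorAlgebra.ι_sq_zero m

lemma io_anti (m m' : Fin N → K) : io m * io m' + io m' * io m = 0 :=
  ExteriorAlgebra.ι_add_mul_swap m m'

lemma io_mul (m : Fin N → K) (b : Lam K N) : io m * b = eps b * io m := by
  induction b using ExteriorAlgebra.induction with
  | algebraMap r => rw [AlgHom.commutes]; exact (Algebra.commutes r _).symm
  | ι x =>
      have := io_anti m x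
      change io m * io x = eps (io x) * io m
      rw [eps_io, neg_mul]
      exact eq_neg_of_add_eq_zero_left this
  | mul a b ha hb => rw [← mul_assoc, ha, mul_assoc, hb, map_mul, mul_assoc]
  | add a b ha hb => rw [mul_add, ha, hb, map_add, add_mul]

/-- `a` is even: central and fixed by `eps` -/
def IsEv (a : Lam K N) : Prop := eps a = a ∧ ∀ b, a * b = b * a

/-- `a` is odd -/
def IsOd (a : Lam K N) : Prop := eps a = -a ∧ ∀ b, a * b = eps b * a

lemma isOd_io (m : Fin N → K) : IsOd (io m) := ⟨eps_io m, io_mul m⟩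

lemma IsEv.add {a b : Lam K N} (ha : IsEv a) (hb : IsEv b) : IsEv (a + b) :=
  ⟨by rw [map_add, ha.1, hb.1], fun c => by rw [add_mul, mul_add, ha.2, hb.2]⟩

lemma IsOd.add {a b : Lam K N} (ha : IsOd a) (hb : IsOd b) : IsOd (a + b) :=
  ⟨by rw [map_add, ha.1, hb.1, neg_add], fun c => by rw [add_mul, mul_add, ha.2, hb.2]⟩

lemma IsEv.mul {a b : Lam K N} (ha : IsEv a) (hb : IsEv b) : IsEv (a * b) :=
  ⟨by rw [map_mul, ha.1, hb.1], fun c => by rw [mul_assoc, hb.2, ← mul_assoc, ha.2, mul_assoc]⟩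

lemma IsOd.mul {a b : Lam K N} (ha : IsOd a) (hb : IsOd b) : IsEv (a * b) :=
  ⟨by rw [map_mul, ha.1, hb.1, neg_mul_neg], fun c => by
    rw [mul_assoc, hb.2, ← mul_assoc, ha.2, mul_assoc]
    congr 1
    exact CliffordAlgebra.involute_involute c⟩

lemma IsEv.mul_od {a b : Lam K N} (ha : IsEv a) (hb : IsOd b) : IsOd (a * b) :=
  ⟨by rw [map_mul, ha.1, hb.1, mul_neg], fun c => by rw [mul_assoc, hb.2, ← mul_assoc, ha.2, mul_assoc]⟩

lemma IsOd.mul_ev {a b : Lam K N} (ha : IsOd a) (hb : IsEv b) : IsOd (a * b) := by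
  rw [← hb.2]; exact hb.mul_od ha

lemma isEv_one : IsEv (1 : Lam K N) := ⟨map_one _, fun b => by rw [one_mul, mul_one]⟩

lemma isEv_zero : IsEv (0 : Lam K N) := ⟨map_zero _, fun b => by rw [zero_mul, mul_zero]⟩

lemma isOd_zero : IsOd (0 : Lam K N) := ⟨by rw [map_zero, neg_zero], fun b => by rw [zero_mul, mul_zero]⟩

lemma isEv_algebraMap (r : K) : IsEv (algebraMap K (Lam K N) r) :=
  ⟨AlgHom.commutes _ _, fun b => Algebra.commutes r b⟩

lemma IsOd.anti {a b : Lam K N} (ha : IsOd a) (hb : IsOd b) : a * b = -(b * a) := by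
  rw [ha.2, hb.1, neg_mul]

/-- even part (characteristic three) -/
noncomputable def e0 : Lam K N →ₗ[K] Lam K N := -(LinearMap.id + eps.toLinearMap)
/-- odd part (characteristic three) -/
noncomputable def e1 : Lam K N →ₗ[K] Lam K N := eps.toLinearMap - LinearMap.id

lemma e0_apply (a : Lam K N) : e0 a = -(a + eps a) := rfl
lemma e1_apply (a : Lam K N) : e1 a = eps a - a := rfl

section

variable [CharP K 3]

lemma three_eq (a : Lam K N) : a + a + a = 0 := by
  have h3 : (3 : K) = 0 := by exact_mod_cast CharP.cast_eq_zero K 3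
  have : a + a + a = (3 : K) • a := by
    rw [show (3 : K) = 1 + 1 + 1 by norm_num, add_smul, add_smul, one_smul]
  rw [this, h3, zero_smul]

lemma two_eq (a : Lam K N) : -a - a = a := by
  have := three_eq a
  have h : -a - a = a - (a + a + a) := by abel
  rw [h, this, sub_zero]

lemma e0_add_e1 (a : Lam K N) : e0 a + e1 a = a := by
  rw [e0_apply, e1_apply]
  have : -(a + eps a) + (eps a - a) = -a - a := by abel
  rw [this, two_eq]

lemma e0_of_ev {a : Lam K N} (ha : IsEv a) : e0 a = a := by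
  rw [e0_apply, ha.1, neg_add', two_eq]

lemma e1_of_od {a : Lam K N} (ha : IsOd a) : e1 a = a := by
  rw [e1_apply, ha.1, two_eq]

omit [CharP K 3] in
lemma e1_of_ev {a : Lam K N} (ha : IsEv a) : e1 a = 0 := by
  rw [e1_apply, ha.1, sub_self]

omit [CharP K 3] in
lemma e0_of_od {a : Lam K N} (ha : IsOd a) : e0 a = 0 := by
  rw [e0_apply, ha.1, add_neg_cancel, neg_zero]

omit [CharP K 3] in
lemma e0_ev_mul {z : Lam K N} (hz : IsEv z) (a : Lam K N) : e0 (z * a) = z * e0 a := by
  rw [e0_apply, e0_apply, map_mul, hz.1, mul_neg, mul_add]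

omit [CharP K 3] in
lemma e1_ev_mul {z : Lam K N} (hz : IsEv z) (a : Lam K N) : e1 (z * a) = z * e1 a := by
  rw [e1_apply, e1_apply, map_mul, hz.1, mul_sub]

omit [CharP K 3] in
lemma e0_od_mul {z : Lam K N} (hz : IsOd z) (a : Lam K N) : e0 (z * a) = z * e1 a := by
  rw [e0_apply, e1_apply, map_mul, hz.1, neg_mul, mul_sub, neg_add, neg_neg]; abel

omit [CharP K 3] in
lemma e1_od_mul {z : Lam K N} (hz : IsOd z) (a : Lam K N) : e1 (z * a) = z * e0 a := by
  rw [e0_apply, e1_apply, map_mul, hz.1, neg_mul, mul_neg, mul_add]; abel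

omit [CharP K 3] in
lemma e0_mul_od {z : Lam K N} (hz : IsOd z) (a : Lam K N) : e0 (a * z) = e1 a * z := by
  rw [e0_apply, e1_apply, map_mul, hz.1, mul_neg, sub_mul, neg_add, neg_neg]; abel

omit [CharP K 3] in
lemma e1_mul_od {z : Lam K N} (hz : IsOd z) (a : Lam K N) : e1 (a * z) = e0 a * z := by
  rw [e0_apply, e1_apply, map_mul, hz.1, mul_neg, neg_mul, add_mul]; abel

lemma parity (a : Lam K N) : IsEv (e0 a) ∧ IsOd (e1 a) := by
  induction a using ExteriorAlgebra.induction with
  | algebraMap r =>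
      rw [e0_of_ev (isEv_algebraMap r), e1_of_ev (isEv_algebraMap r)]
      exact ⟨isEv_algebraMap r, isOd_zero⟩
  | ι x =>
      have h : IsOd (ExteriorAlgebra.ι K x : Lam K N) := isOd_io x
      rw [e0_of_od h, e1_of_od h]
      exact ⟨isEv_zero, h⟩
  | mul a b ha hb =>
      have h0 : e0 (a * b) = e0 a * e0 b + e1 a * e1 b := by
        conv_lhs => rw [← e0_add_e1 a]
        rw [add_mul, map_add, e0_ev_mul ha.1, e0_od_mul ha.2]
      have h1 : e1 (a * b) = e0 a * e1 b + e1 a * e0 b := by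
        conv_lhs => rw [← e0_add_e1 a]
        rw [add_mul, map_add, e1_ev_mul ha.1, e1_od_mul ha.2]
      rw [h0, h1]
      exact ⟨(ha.1.mul hb.1).add (ha.2.mul hb.2), (ha.1.mul_od hb.2).add (ha.2.mul_ev hb.1)⟩
  | add a b ha hb =>
      rw [map_add, map_add]
      exact ⟨ha.1.add hb.1, ha.2.add hb.2⟩

lemma ev0 (a : Lam K N) : IsEv (e0 a) := (parity a).1
lemma od1 (a : Lam K N) : IsOd (e1 a) := (parity a).2

end

end Pool.Agent.X41.Alt3
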