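import Pool.Agent.X41.Alt3.Ident

set_option autoImplicit false
set_option linter.unusedSectionVars false

/-!
# A solvable variety of alternative algebras of characteristic three without a finite basis
-/

namespace Pool.Agent.X41.Alt3

open Finset Equiv Pool.Agent.X41.Inf3

universe u

variable {K : Type u} [Field K] [CharP K 3] {N : ℕ}

lemma det_zero {L : Submodule K (Fin N → K)} (hL : L ≠ ⊤) (v : Fin N → (Fin N → K))
    (hv : ∀ i, v i ∈ L) : (Matrix.detRowAlternating : (Fin N → K) [⋀^Fin N]→ₗ[K] K) v = 0 := by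
  apply AlternatingMap.map_linearDependent
  intro hli
  apply hL
  have h1 : Submodule.span K (Set.range v) = ⊤ :=
    hli.span_eq_top_of_card_eq_finrank' (by simp)
  rw [eq_top_iff, ← h1, Submodule.span_le]
  rintro _ ⟨i, rfl⟩
  exact hv i

/-- `G_n` holds in `B(N, L)` if `8 + n ≠ N` or `L` is proper. -/
lemma GG_identity {L : Submodule K (Fin N → K)} {n : ℕ} (hn : Even n) (h : 8 + n ≠ N ∨ L ≠ ⊤) :
    IsIdentity K (BB K N L) (GG K n) := by
  intro r
  refine (GG_val r hn).eq_zero ?_
  obtain ⟨c, -, he⟩ := outp_Pp (fun i => (r i).lv) (fun i => (r i).th) n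
  have he' : outp (Lp (fun i => (r i).lv) n) (pr (r 5)) (pr (r 6)) (pr (r 7))
        (fun i : Fin 5 => pr (r i)) = c • Pp (fun i => (r i).lv) (8 + n) := he
  rw [he', map_smul, Pp_eq]
  by_cases hN : 8 + n = N
  · subst hN
    rw [tau_same, det_zero (h.resolve_left (by simp)) _ fun i => (r i).mem.2.2, smul_zero]
  · rw [tau_ne hN, smul_zero]

/-- constructor -/
noncomputable def mkB {L : Submodule K (Fin N → K)} (l : Fin N → K) (t : UU K N)
    (h : Bal t ∧ ∑ i, t i = io l ∧ l ∈ L) (p : UU K N →ₗ[K] K) (c : K) : BB K N L :=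
  (⟨(l, t), h⟩, p, c)

lemma mkB_lv {L : Submodule K (Fin N → K)} (l : Fin N → K) (t : UU K N)
    (h : Bal t ∧ ∑ i, t i = io l ∧ l ∈ L) (p : UU K N →ₗ[K] K) (c : K) :
    (mkB l t h p c).lv = l := rfl

lemma gen_aux (i : Fin N) : Bal (Pi.single i (io (Pi.single i (1 : K))) : UU K N) ∧
    ∑ j, (Pi.single i (io (Pi.single i (1 : K))) : UU K N) j = io (Pi.single i 1) ∧
      (Pi.single i 1 : Fin N → K) ∈ (⊤ : Submodule K (Fin N → K)) := by
  refine ⟨fun j => ?_, ?_, trivial⟩
  · by_cases hj : j = i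
    · subst hj; exact ⟨1, by simp⟩
    · exact ⟨0, by simp [Pi.single_eq_of_ne hj]⟩
  · rw [Finset.sum_eq_single i]
    · simp
    · intro b _ hb; simp [Pi.single_eq_of_ne hb]
    · intro h; exact absurd (Finset.mem_univ i) h

/-- generators of `B(N, ⊤)` -/
noncomputable def gen (K : Type u) [Field K] [CharP K 3] (N : ℕ) (i : ℕ) : BB K N ⊤ :=
  if h : i < N then mkB (Pi.single ⟨i, h⟩ 1) _ (gen_aux ⟨i, h⟩) 0 0 else 0

lemma gen_lv (i : Fin N) : (gen K N i).lv = Pi.single i 1 := by
  rw [gen, dif_pos i.2, mkB_lv]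

lemma GG_not {n : ℕ} (hn : Even n) : ¬ IsIdentity K (BB K (8 + n) ⊤) (GG K n) := by
  intro h
  have h1 := (GG_val (gen K (8 + n)) hn).zero_of (h (gen K (8 + n)))
  obtain ⟨c, hc, he⟩ := outp_Pp (fun i => (gen K (8 + n) i).lv) (fun i => (gen K (8 + n) i).th) n
  have he' : outp (Lp (fun i => (gen K (8 + n) i).lv) n) (pr (gen K (8 + n) 5))
      (pr (gen K (8 + n) 6)) (pr (gen K (8 + n) 7))
      (fun i : Fin 5 => pr (gen K (8 + n) i)) = c • Pp (fun i => (gen K (8 + n) i).lv) (8 + n) := he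
  rw [he', map_smul, Pp_eq, tau_same] at h1
  have h2 : (fun i : Fin (8 + n) => (gen K (8 + n) i).lv) = (1 : Matrix (Fin (8 + n)) (Fin (8 + n)) K) := by
    funext i
    rw [gen_lv]
    funext j
    rw [Matrix.one_apply, Pi.single_apply]
    simp [eq_comm]
  rw [h2] at h1
  have h3 : (Matrix.detRowAlternating : (Fin (8 + n) → K) [⋀^Fin (8 + n)]→ₗ[K] K)
      (1 : Matrix (Fin (8 + n)) (Fin (8 + n)) K) = 1 := Matrix.det_one
  rw [h3, smul_eq_mul, mul_one] at h1
  exact hc h1

/-- the embedding of `B(N, L)` into `B(N, ⊤)` -/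
noncomputable def emb (L : Submodule K (Fin N → K)) (x : BB K N L) : BB K N ⊤ :=
  (⟨(x.lv, x.th), ⟨x.mem.1, x.mem.2.1, trivial⟩⟩, x.ph, x.ce)

lemma emb_mul (L : Submodule K (Fin N → K)) (x y : BB K N L) :
    emb L (x * y) = emb L x * emb L y := rfl

lemma emb_add (L : Submodule K (Fin N → K)) (x y : BB K N L) :
    emb L (x + y) = emb L x + emb L y := rfl

lemma emb_smul (L : Submodule K (Fin N → K)) (c : K) (x : BB K N L) :
    emb L (c • x) = c • emb L x := rfl

lemma emb_zero (L : Submodule K (Fin N → K)) : emb L 0 = 0 := rfl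

lemma emb_sum (L : Submodule K (Fin N → K)) {ι : Type*} (s : Finset ι) (f : ι → BB K N L) :
    emb L (∑ i ∈ s, f i) = ∑ i ∈ s, emb L (f i) := by
  classical
  induction s using Finset.induction_on with
  | empty => rfl
  | insert a s h ih => rw [Finset.sum_insert h, Finset.sum_insert h, emb_add, ih]

/-- an identity in fewer than `N` variables which holds in all `B(N, L)` with `L` proper holds
in `B(N, ⊤)` -/
lemma holds_top {m : ℕ} (hm : m < N) (f : FreeNonUnitalNonAssocAlgebra K ℕ)
    (hf : ∀ t ∈ f.coeff.support, bdd m t)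
    (h : ∀ L : Submodule K (Fin N → K), L ≠ ⊤ → IsIdentity K (BB K N L) f) :
    IsIdentity K (BB K N ⊤) f := by
  intro r
  let L : Submodule K (Fin N → K) := Submodule.span K (Set.range fun i : Fin m => (r i).lv)
  have hL : L ≠ ⊤ := by
    intro hT
    have h1 : Module.finrank K L ≤ m := by
      have := finrank_range_le_card (R := K) (fun i : Fin m => (r i).lv)
      rwa [Fintype.card_fin] at this
    rw [hT, finrank_top, Module.finrank_fin_fun] at h1
    omega
  let r' : ℕ → BB K N L := fun i => if hi : i < m then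
    mkB (r i).lv (r i).th ⟨(r i).mem.1, (r i).mem.2.1, Submodule.subset_span ⟨⟨i, hi⟩, rfl⟩⟩
      (r i).ph (r i).ce else 0
  have hr : ∀ i, i < m → r i = emb L (r' i) := by
    intro i hi
    simp only [r', dif_pos hi]
    rfl
  have hev : ∀ t, bdd m t → ev r t = emb L (ev r' t) := by
    intro t
    induction t with
    | ih1 x => intro hx; rw [ev_of, ev_of]; exact hr x hx
    | ih2 a b ha hb => 
        intro hx
        have h1 := ha hx.1
        have h2 := hb hx.2
        change ev r a * ev r b = emb L (ev r' a * ev r' b)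
        rw [emb_mul, h1, h2]
  rw [lift_eq]
  have h2 := h L hL r'
  rw [lift_eq] at h2
  have h3 := congrArg (emb L) h2
  rw [emb_sum, emb_zero] at h3
  rw [← h3]
  refine Finset.sum_congr rfl fun t ht => ?_
  rw [emb_smul, hev t (hf t ht)]

end Pool.Agent.X41.Alt3
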