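import Pool.Agent.X41.Alt3.Ext

set_option autoImplicit false

/-!
# The trilinear form
-/

namespace Pool.Agent.X41.Alt3

open Finset

universe u

/-- vectors over the exterior algebra -/
abbrev UU (K : Type u) [Field K] (N : ℕ) : Type u := Fin N → Lam K N

variable {K : Type u} [Field K] {N : ℕ}

/-- `a` is the smallest of the three distinct indices `a, b, c` -/
def mm (K : Type u) [Field K] {N : ℕ} (a b c : Fin N) : K := if a < b ∧ a < c ∧ b ≠ c then 1 else 0

lemma mm_symm (a b c : Fin N) : mm K a b c = mm K a c b := by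
  unfold mm
  congr 1
  simp only [ne_eq, eq_iff_iff]
  constructor <;> rintro ⟨h1, h2, h3⟩ <;> exact ⟨h2, h1, fun h => h3 h.symm⟩

lemma mm_sum (i j k : Fin N) (h : ¬ (i = j ∨ i = k ∨ j = k)) :
    mm K i j k + mm K j i k + mm K k i j = 1 := by
  push Not at h
  obtain ⟨h1, h2, h3⟩ := h
  unfold mm
  simp only [ne_eq, Fin.lt_def, Fin.ext_iff] at *
  split_ifs <;> first | (exfalso; omega) | simp

/-- basic trilinear form -/
noncomputable def T3 (τ : Lam K N →ₗ[K] K) (p q r : Lam K N →ₗ[K] Lam K N) (i j k : Fin N) :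
    UU K N →ₗ[K] UU K N →ₗ[K] UU K N →ₗ[K] K :=
  LinearMap.mk₂ K
    (fun u v => τ ∘ₗ LinearMap.mulLeft K (p (u i) * q (v j)) ∘ₗ r ∘ₗ LinearMap.proj k)
    (fun u u' v => by
      apply LinearMap.ext; intro w
      simp only [LinearMap.comp_apply, LinearMap.mulLeft_apply, LinearMap.add_apply, Pi.add_apply,
        map_add, add_mul])
    (fun c u v => by
      apply LinearMap.ext; intro w
      simp only [LinearMap.comp_apply, LinearMap.mulLeft_apply, LinearMap.smul_apply, Pi.smul_apply,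
        map_smul, smul_mul_assoc])
    (fun u v v' => by
      apply LinearMap.ext; intro w
      simp only [LinearMap.comp_apply, LinearMap.mulLeft_apply, LinearMap.add_apply, Pi.add_apply,
        map_add, add_mul, mul_add])
    (fun c u v => by
      apply LinearMap.ext; intro w
      simp only [LinearMap.comp_apply, LinearMap.mulLeft_apply, LinearMap.smul_apply, Pi.smul_apply,
        map_smul, smul_mul_assoc, mul_smul_comm])

lemma T3_apply (τ : Lam K N →ₗ[K] K) (p q r : Lam K N →ₗ[K] Lam K N) (i j k : Fin N)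
    (u v w : UU K N) : T3 τ p q r i j k u v w = τ (p (u i) * q (v j) * r (w k)) := rfl

/-- the trilinear form -/
noncomputable def TT (τ : Lam K N →ₗ[K] K) : UU K N →ₗ[K] UU K N →ₗ[K] UU K N →ₗ[K] K :=
  ∑ i, ∑ j, ∑ k, ((mm K j i k + mm K i j k) • T3 τ e0 e0 e0 i j k +
    (mm K j i k - mm K i j k) • T3 τ e1 e1 e0 i j k + mm K j i k • T3 τ e0 e1 e1 i j k +
    mm K i j k • T3 τ e1 e0 e1 i j k)

lemma TT_apply (τ : Lam K N →ₗ[K] K) (u v w : UU K N) : TT τ u v w =
    ∑ i, ∑ j, ∑ k, ((mm K j i k + mm K i j k) * τ (e0 (u i) * e0 (v j) * e0 (w k)) +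
      (mm K j i k - mm K i j k) * τ (e1 (u i) * e1 (v j) * e0 (w k)) +
      mm K j i k * τ (e0 (u i) * e1 (v j) * e1 (w k)) +
      mm K i j k * τ (e1 (u i) * e0 (v j) * e1 (w k))) := by
  simp only [TT, LinearMap.sum_apply, LinearMap.add_apply, LinearMap.smul_apply, T3_apply,
    smul_eq_mul]

variable [CharP K 3]

lemma TT_symm (τ : Lam K N →ₗ[K] K) (u v w : UU K N) : TT τ u v w = TT τ v u w := by
  rw [TT_apply, TT_apply, Finset.sum_comm]
  refine sum_congr rfl fun j _ => sum_congr rfl fun i _ => sum_congr rfl fun k _ => ?_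
  have h1 : e0 (v j) * e0 (u i) = e0 (u i) * e0 (v j) := (ev0 _).2 _
  have h2 : e1 (v j) * e1 (u i) = -(e1 (u i) * e1 (v j)) := (od1 _).anti (od1 _)
  have h3 : e0 (v j) * e1 (u i) = e1 (u i) * e0 (v j) := (ev0 _).2 _
  have h4 : e1 (v j) * e0 (u i) = e0 (u i) * e1 (v j) := ((ev0 _).2 _).symm
  rw [h1, h2, h3, h4]
  simp only [neg_mul, map_neg]
  ring

omit [CharP K 3] in
lemma IsEv.swap {a : Lam K N} (ha : IsEv a) (c b : Lam K N) : a * (c * b) = c * (a * b) := by
  rw [← mul_assoc, ha.2, mul_assoc]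

omit [CharP K 3] in
lemma IsOd.swap {a c : Lam K N} (ha : IsOd a) (hc : IsOd c) (b : Lam K N) :
    a * (c * b) = -(c * (a * b)) := by
  rw [← mul_assoc, ha.anti hc, neg_mul, mul_assoc]

/-- the action of letters -/
noncomputable def acts (l : Fin N → K) (u : UU K N) : UU K N := fun i => io l * u i

lemma TT_rel (τ : Lam K N →ₗ[K] K) (l : Fin N → K) (u v w : UU K N) :
    TT τ (acts l u) v w + TT τ u (acts l v) w = TT τ u v (acts l w) := by
  have h3 : (3 : K) = 0 := by exact_mod_cast CharP.cast_eq_zero K 3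
  rw [TT_apply, TT_apply, TT_apply, ← Finset.sum_add_distrib]
  refine sum_congr rfl fun i _ => ?_
  rw [← Finset.sum_add_distrib]
  refine sum_congr rfl fun j _ => ?_
  rw [← Finset.sum_add_distrib]
  refine sum_congr rfl fun k _ => ?_
  simp only [acts, e0_od_mul (isOd_io l), e1_od_mul (isOd_io l), mul_assoc]
  rw [(ev0 (u i)).swap (io l) (e1 (v j) * e0 (w k)),
    (od1 (u i)).swap (isOd_io l) (e0 (v j) * e0 (w k)),
    (ev0 (u i)).swap (io l) (e0 (v j) * e1 (w k)),
    (od1 (u i)).swap (isOd_io l) (e1 (v j) * e1 (w k)),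
    (ev0 (v j)).swap (io l) (e1 (w k)),
    (od1 (v j)).swap (isOd_io l) (e1 (w k)),
    (od1 (v j)).swap (isOd_io l) (e0 (w k)),
    (ev0 (v j)).swap (io l) (e0 (w k)), mul_neg, mul_neg,
    (ev0 (u i)).swap (io l) (e0 (v j) * e1 (w k)),
    (od1 (u i)).swap (isOd_io l) (e1 (v j) * e1 (w k)),
    (ev0 (u i)).swap (io l) (e1 (v j) * e0 (w k)),
    (od1 (u i)).swap (isOd_io l) (e0 (v j) * e0 (w k))]
  simp only [map_neg]
  linear_combination (mm K j i k * τ (io l * (e0 (u i) * (e1 (v j) * e0 (w k)))) +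
    mm K i j k * τ (io l * (e1 (u i) * (e0 (v j) * e0 (w k))))) * h3

end Pool.Agent.X41.Alt3
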