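import Pool.Agent.X41.Alt3.Form

set_option autoImplicit false
set_option linter.unusedSimpArgs false

/-!
# Cyclic and alternating sums of the trilinear form
-/

namespace Pool.Agent.X41.Alt3

open Finset

universe u

variable {K : Type u} [Field K] {N : ℕ}

/-- the `i`-th coordinate is a left multiple of the `i`-th generator -/
def Bal (u : UU K N) : Prop := ∀ i, ∃ a, u i = a * io (Pi.single i 1)

lemma sandwich (m : Fin N → K) (a b c : Lam K N) : a * io m * c * (b * io m) = 0 := by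
  have : a * io m * c * (b * io m) = a * (io m * (c * b)) * io m := by simp only [mul_assoc]
  rw [this, io_mul, ← mul_assoc, mul_assoc, io_sq, mul_zero]

lemma sandwich' (m : Fin N → K) (a b : Lam K N) : a * io m * (b * io m) = 0 := by
  have := sandwich m a b 1
  rwa [mul_one] at this

lemma van {x y z : Lam K N} {i j k : Fin N} (hx : ∃ a, x = a * io (Pi.single i 1))
    (hy : ∃ a, y = a * io (Pi.single j 1)) (hz : ∃ a, z = a * io (Pi.single k 1))
    (h : i = j ∨ i = k ∨ j = k) : x * y * z = 0 := by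
  obtain ⟨a, rfl⟩ := hx
  obtain ⟨b, rfl⟩ := hy
  obtain ⟨c, rfl⟩ := hz
  rcases h with rfl | rfl | rfl
  · rw [sandwich', zero_mul]
  · exact sandwich _ _ _ _
  · rw [mul_assoc, sandwich', mul_zero]

lemma Bal.e0 {u : UU K N} (hu : Bal u) (i : Fin N) :
    ∃ a, Alt3.e0 (u i) = a * io (Pi.single i 1) := by
  obtain ⟨a, ha⟩ := hu i
  exact ⟨_, by rw [ha, e0_mul_od (isOd_io _)]⟩

lemma Bal.e1 {u : UU K N} (hu : Bal u) (i : Fin N) :
    ∃ a, Alt3.e1 (u i) = a * io (Pi.single i 1) := by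
  obtain ⟨a, ha⟩ := hu i
  exact ⟨_, by rw [ha, e1_mul_od (isOd_io _)]⟩

lemma rot {α : Type*} [Fintype α] (f : α → α → α → K) :
    ∑ j, ∑ k, ∑ i, f j k i = ∑ i, ∑ j, ∑ k, f j k i := by
  rw [Finset.sum_congr rfl (fun j _ => Finset.sum_comm), Finset.sum_comm]

lemma rot2 {α : Type*} [Fintype α] (f : α → α → α → K) :
    ∑ k, ∑ i, ∑ j, f k i j = ∑ i, ∑ j, ∑ k, f k i j := by
  rw [Finset.sum_comm]
  exact Finset.sum_congr rfl (fun j _ => Finset.sum_comm)

lemma prod_sum3 (τ : Lam K N →ₗ[K] K) (z : Lam K N) (f g h : Fin N → Lam K N) :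
    τ (z * ((∑ i, f i) * (∑ j, g j) * (∑ k, h k))) = ∑ i, ∑ j, ∑ k, τ (z * (f i * g j * h k)) := by
  have : (∑ i, f i) * (∑ j, g j) * (∑ k, h k) = ∑ i, ∑ j, ∑ k, f i * g j * h k := by
    rw [Finset.sum_mul_sum, Finset.sum_mul]
    refine sum_congr rfl fun i _ => ?_
    rw [Finset.sum_mul_sum]
  rw [this]
  simp only [Finset.mul_sum, map_sum]

/-- the weights `m_i + m_j + m_k` are one where it matters -/
lemma mm_tau (τ : Lam K N →ₗ[K] K) (z : Lam K N) {x y t : Lam K N} {i j k : Fin N}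
    (hx : ∃ a, x = a * io (Pi.single i 1))
    (hy : ∃ a, y = a * io (Pi.single j 1)) (ht : ∃ a, t = a * io (Pi.single k 1)) :
    (mm K i j k + mm K j i k + mm K k i j) * τ (z * (x * y * t)) = τ (z * (x * y * t)) := by
  by_cases h : i = j ∨ i = k ∨ j = k
  · rw [van hx hy ht h, mul_zero, map_zero, mul_zero]
  · rw [mm_sum i j k h, one_mul]

variable [CharP K 3]

lemma TT_cyc (τ : Lam K N →ₗ[K] K) {u v w : UU K N} (hu : Bal u) (hv : Bal v) (hw : Bal w) :
    TT τ u v w + TT τ v w u + TT τ w u v =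
      2 * τ (1 * ((∑ i, e0 (u i)) * (∑ j, e0 (v j)) * (∑ k, e0 (w k)))) := by
  have h3 : (3 : K) = 0 := by exact_mod_cast CharP.cast_eq_zero K 3
  rw [TT_apply, TT_apply, TT_apply,
    rot (fun j k i => ((mm K k j i + mm K j k i) * τ (e0 (v j) * e0 (w k) * e0 (u i)) +
      (mm K k j i - mm K j k i) * τ (e1 (v j) * e1 (w k) * e0 (u i)) +
      mm K k j i * τ (e0 (v j) * e1 (w k) * e1 (u i)) +
      mm K j k i * τ (e1 (v j) * e0 (w k) * e1 (u i)))),
    rot2 (fun k i j => ((mm K i k j + mm K k i j) * τ (e0 (w k) * e0 (u i) * e0 (v j)) +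
      (mm K i k j - mm K k i j) * τ (e1 (w k) * e1 (u i) * e0 (v j)) +
      mm K i k j * τ (e0 (w k) * e1 (u i) * e1 (v j)) +
      mm K k i j * τ (e1 (w k) * e0 (u i) * e1 (v j)))),
    prod_sum3, Finset.mul_sum, ← Finset.sum_add_distrib, ← Finset.sum_add_distrib]
  refine sum_congr rfl fun i _ => ?_
  rw [Finset.mul_sum, ← Finset.sum_add_distrib, ← Finset.sum_add_distrib]
  refine sum_congr rfl fun j _ => ?_
  rw [Finset.mul_sum, ← Finset.sum_add_distrib, ← Finset.sum_add_distrib]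
  refine sum_congr rfl fun k _ => ?_
  have U0 := ev0 (u i)
  have V0 := ev0 (v j)
  have W0 := ev0 (w k)
  have U1 := od1 (u i)
  have V1 := od1 (v j)
  have W1 := od1 (w k)
  have a1 : e0 (v j) * e0 (w k) * e0 (u i) = e0 (u i) * e0 (v j) * e0 (w k) := by
    rw [← U0.2, mul_assoc]
  have a2 : e1 (v j) * e1 (w k) * e0 (u i) = e0 (u i) * e1 (v j) * e1 (w k) := by
    rw [← U0.2, mul_assoc]
  have a3 : e0 (v j) * e1 (w k) * e1 (u i) = -(e1 (u i) * e0 (v j) * e1 (w k)) := by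
    rw [(V0.mul_od W1).anti U1, mul_assoc]
  have a4 : e1 (v j) * e0 (w k) * e1 (u i) = -(e1 (u i) * e1 (v j) * e0 (w k)) := by
    rw [(V1.mul_ev W0).anti U1, mul_assoc]
  have b1 : e0 (w k) * e0 (u i) * e0 (v j) = e0 (u i) * e0 (v j) * e0 (w k) := by
    rw [mul_assoc, W0.2]
  have b2 : e1 (w k) * e1 (u i) * e0 (v j) = -(e1 (u i) * e0 (v j) * e1 (w k)) := by
    rw [mul_assoc, W1.anti (U1.mul_ev V0)]
  have b3 : e0 (w k) * e1 (u i) * e1 (v j) = e1 (u i) * e1 (v j) * e0 (w k) := by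
    rw [mul_assoc, W0.2]
  have b4 : e1 (w k) * e0 (u i) * e1 (v j) = -(e0 (u i) * e1 (v j) * e1 (w k)) := by
    rw [mul_assoc, W1.anti (U0.mul_od V1)]
  have key := mm_tau (K := K) τ 1 (hu.e0 i) (hv.e0 j) (hw.e0 k)
  rw [a1, a2, a3, a4, b1, b2, b3, b4]
  simp only [map_neg, one_mul] at key ⊢
  rw [mm_symm k j i, mm_symm j k i, mm_symm i k j]
  linear_combination 2 * key

/-- summand of the form with the letters moved to the front -/
noncomputable def YS (τ : Lam K N →ₗ[K] K) (z : Lam K N) (u v w : UU K N) (i j k : Fin N) : K :=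
  -((mm K j i k + mm K i j k) * τ (z * (e1 (u i) * e1 (v j) * e1 (w k)))) +
      (mm K j i k - mm K i j k) * τ (z * (e0 (u i) * e0 (v j) * e1 (w k))) +
      mm K j i k * τ (z * (e1 (u i) * e0 (v j) * e0 (w k))) -
      mm K i j k * τ (z * (e0 (u i) * e1 (v j) * e0 (w k)))

/-- the form with the letters moved to the front -/
noncomputable def YY (τ : Lam K N →ₗ[K] K) (z : Lam K N) (u v w : UU K N) : K :=
  ∑ i, ∑ j, ∑ k, YS τ z u v w i j k

/-- alternating sum over the six orders -/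
lemma YY_alt (τ : Lam K N →ₗ[K] K) (z : Lam K N) {u v w : UU K N} (hu : Bal u) (hv : Bal v)
    (hw : Bal w) :
    YY τ z u v w - YY τ z v u w - YY τ z u w v - YY τ z w v u + YY τ z v w u + YY τ z w u v =
      -4 * τ (z * ((∑ i, e1 (u i)) * (∑ j, e1 (v j)) * (∑ k, e1 (w k)))) := by
  have q1 : YY τ z v u w = ∑ i, ∑ j, ∑ k, YS τ z v u w j i k := Finset.sum_comm
  have q2 : YY τ z u w v = ∑ i, ∑ j, ∑ k, YS τ z u w v i k j :=
    Finset.sum_congr rfl fun i _ => Finset.sum_comm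
  have q3 : YY τ z w v u = ∑ i, ∑ j, ∑ k, YS τ z w v u k j i := by
    rw [YY, Finset.sum_comm, rot (fun j k i => YS τ z w v u k j i)]
  have q4 : YY τ z v w u = ∑ i, ∑ j, ∑ k, YS τ z v w u j k i :=
    rot (fun j k i => YS τ z v w u j k i)
  have q5 : YY τ z w u v = ∑ i, ∑ j, ∑ k, YS τ z w u v k i j :=
    rot2 (fun k i j => YS τ z w u v k i j)
  rw [q1, q2, q3, q4, q5, YY, prod_sum3, Finset.mul_sum]
  simp only [← Finset.sum_add_distrib, ← Finset.sum_sub_distrib]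
  refine sum_congr rfl fun i _ => ?_
  rw [Finset.mul_sum]
  refine sum_congr rfl fun j _ => ?_
  rw [Finset.mul_sum]
  refine sum_congr rfl fun k _ => ?_
  have key := mm_tau (K := K) τ z (hu.e1 i) (hv.e1 j) (hw.e1 k)
  have ry0x0 : e0 (v j) * e0 (u i) = e0 (u i) * e0 (v j) := (ev0 _).2 _
  have ry0x0' : ∀ s : Lam K N, s * e0 (v j) * e0 (u i) = s * e0 (u i) * e0 (v j) := fun s => by rw [mul_assoc, ry0x0, mul_assoc]
  have ry0x1 : e0 (v j) * e1 (u i) = e1 (u i) * e0 (v j) := (ev0 _).2 _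
  have ry0x1' : ∀ s : Lam K N, s * e0 (v j) * e1 (u i) = s * e1 (u i) * e0 (v j) := fun s => by rw [mul_assoc, ry0x1, mul_assoc]
  have ry1x0 : e1 (v j) * e0 (u i) = e0 (u i) * e1 (v j) := ((ev0 _).2 _).symm
  have ry1x0' : ∀ s : Lam K N, s * e1 (v j) * e0 (u i) = s * e0 (u i) * e1 (v j) := fun s => by rw [mul_assoc, ry1x0, mul_assoc]
  have ry1x1 : e1 (v j) * e1 (u i) = -(e1 (u i) * e1 (v j)) := (od1 _).anti (od1 _)
  have ry1x1' : ∀ s : Lam K N, s * e1 (v j) * e1 (u i) = -(s * e1 (u i) * e1 (v j)) := fun s => by rw [mul_assoc, ry1x1, mul_neg, mul_assoc]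
  have rt0x0 : e0 (w k) * e0 (u i) = e0 (u i) * e0 (w k) := (ev0 _).2 _
  have rt0x0' : ∀ s : Lam K N, s * e0 (w k) * e0 (u i) = s * e0 (u i) * e0 (w k) := fun s => by rw [mul_assoc, rt0x0, mul_assoc]
  have rt0x1 : e0 (w k) * e1 (u i) = e1 (u i) * e0 (w k) := (ev0 _).2 _
  have rt0x1' : ∀ s : Lam K N, s * e0 (w k) * e1 (u i) = s * e1 (u i) * e0 (w k) := fun s => by rw [mul_assoc, rt0x1, mul_assoc]
  have rt1x0 : e1 (w k) * e0 (u i) = e0 (u i) * e1 (w k) := ((ev0 _).2 _).symm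
  have rt1x0' : ∀ s : Lam K N, s * e1 (w k) * e0 (u i) = s * e0 (u i) * e1 (w k) := fun s => by rw [mul_assoc, rt1x0, mul_assoc]
  have rt1x1 : e1 (w k) * e1 (u i) = -(e1 (u i) * e1 (w k)) := (od1 _).anti (od1 _)
  have rt1x1' : ∀ s : Lam K N, s * e1 (w k) * e1 (u i) = -(s * e1 (u i) * e1 (w k)) := fun s => by rw [mul_assoc, rt1x1, mul_neg, mul_assoc]
  have rt0y0 : e0 (w k) * e0 (v j) = e0 (v j) * e0 (w k) := (ev0 _).2 _
  have rt0y0' : ∀ s : Lam K N, s * e0 (w k) * e0 (v j) = s * e0 (v j) * e0 (w k) := fun s => by rw [mul_assoc, rt0y0, mul_assoc]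
  have rt0y1 : e0 (w k) * e1 (v j) = e1 (v j) * e0 (w k) := (ev0 _).2 _
  have rt0y1' : ∀ s : Lam K N, s * e0 (w k) * e1 (v j) = s * e1 (v j) * e0 (w k) := fun s => by rw [mul_assoc, rt0y1, mul_assoc]
  have rt1y0 : e1 (w k) * e0 (v j) = e0 (v j) * e1 (w k) := ((ev0 _).2 _).symm
  have rt1y0' : ∀ s : Lam K N, s * e1 (w k) * e0 (v j) = s * e0 (v j) * e1 (w k) := fun s => by rw [mul_assoc, rt1y0, mul_assoc]
  have rt1y1 : e1 (w k) * e1 (v j) = -(e1 (v j) * e1 (w k)) := (od1 _).anti (od1 _)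
  have rt1y1' : ∀ s : Lam K N, s * e1 (w k) * e1 (v j) = -(s * e1 (v j) * e1 (w k)) := fun s => by rw [mul_assoc, rt1y1, mul_neg, mul_assoc]
  simp only [YS,
    ry0x0, ry0x0',
    ry0x1, ry0x1',
    ry1x0, ry1x0',
    ry1x1, ry1x1',
    rt0x0, rt0x0',
    rt0x1, rt0x1',
    rt1x0, rt1x0',
    rt1x1, rt1x1',
    rt0y0, rt0y0',
    rt0y1, rt0y1',
    rt1y0, rt1y0',
    rt1y1, rt1y1',
    neg_mul, mul_neg, map_neg, neg_neg]
  rw [mm_symm k j i, mm_symm j k i, mm_symm i k j]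
  linear_combination -4 * key

end Pool.Agent.X41.Alt3
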