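import Pool.Agent.X41.Alt3.Inst

set_option autoImplicit false
set_option linter.unusedSectionVars false

/-!
# The identities `G_n` on the algebras `B(N, L)`
-/

namespace Pool.Agent.X41.Alt3

open Finset Equiv Pool.Agent.X41.Inf3

universe u

variable (K : Type u) [Field K]

/-- the product `(((t x_8) x_9) ⋯) x_{n+7}` in a nonassociative algebra -/
def chn {A : Type*} [Mul A] (x : ℕ → A) (t : A) : ℕ → A
  | 0 => t
  | n + 1 => chn x t n * x (8 + n)

/-- the monomial of the identity belonging to a permutation -/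
def gmon {A : Type*} [Mul A] (x : ℕ → A) (n : ℕ) (σ : Perm (Fin 5)) : A :=
  (chn x (((x (σ 0) * x 5) * x (σ 3)) * x (σ 4)) n * (x (σ 1) * x 6)) * (x (σ 2) * x 7)

/-- the identity `G_n`, of degree `8 + n` -/
noncomputable def GG (n : ℕ) : FreeNonUnitalNonAssocAlgebra K ℕ :=
  ∑ σ : Perm (Fin 5), sg K σ • gmon (FreeNonUnitalNonAssocAlgebra.of K) n σ

variable {K}

lemma lift_chn {C : Type u} [NonUnitalNonAssocRing C] [Module K C] [IsScalarTower K C C]
    [SMulCommClass K C C] (r : ℕ → C) (t : FreeNonUnitalNonAssocAlgebra K ℕ) : ∀ n,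
    FreeNonUnitalNonAssocAlgebra.lift K r (chn (FreeNonUnitalNonAssocAlgebra.of K) t n) =
      chn r (FreeNonUnitalNonAssocAlgebra.lift K r t) n
  | 0 => rfl
  | n + 1 => by
      rw [chn, map_mul, lift_chn r t n, FreeNonUnitalNonAssocAlgebra.lift_of_apply, chn]

lemma lift_GG {C : Type u} [NonUnitalNonAssocRing C] [Module K C] [IsScalarTower K C C]
    [SMulCommClass K C C] (r : ℕ → C) (n : ℕ) :
    FreeNonUnitalNonAssocAlgebra.lift K r (GG K n) =
      ∑ σ : Perm (Fin 5), sg K σ • gmon r n σ := by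
  rw [GG, map_sum]
  refine sum_congr rfl fun σ _ => ?_
  rw [map_smul, gmon, map_mul, map_mul, map_mul, map_mul, lift_chn, map_mul, map_mul, map_mul]
  simp only [FreeNonUnitalNonAssocAlgebra.lift_of_apply, gmon]

variable [CharP K 3] {N : ℕ} {L : Submodule K (Fin N → K)}

/-- the pair of a letter and its vector -/
noncomputable def pr (x : BB K N L) : PV K N := (x.lv, x.th)

lemma chn_lv (r : ℕ → BB K N L) (t : BB K N L) (ht : t.lv = 0) : ∀ n, (chn r t n).lv = 0
  | 0 => ht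
  | n + 1 => by rw [chn, Alg.mul_lv]

lemma act_eq (l : Fin N → K) (u : UU K N) : (DD K N L).act l u = sc (io l) u := rfl

lemma chn_th (r : ℕ → BB K N L) (t : BB K N L) (ht : t.lv = 0) : ∀ n,
    (chn r t n).th = sc (Lp (fun i => (r i).lv) n) t.th
  | 0 => by rw [chn, Lp, sc_one]
  | n + 1 => by
      rw [chn, Alg.mul_th, chn_lv r t ht n, chn_th r t ht n, map_zero, LinearMap.zero_apply,
        zero_add, act_eq, sc_sc, Lp]

lemma T_eq : (DD K N L).T = TT (tau K N) := rfl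

lemma mul_th_br (x y : BB K N L) : (x * y).th = br (pr x) (pr y) := rfl

lemma mul_th_of (x y : BB K N L) (h : x.lv = 0) : (x * y).th = sc (io y.lv) x.th := by
  rw [Alg.mul_th, h, map_zero, LinearMap.zero_apply, zero_add, act_eq]

lemma gmon_val (r : ℕ → BB K N L) (n : ℕ) (σ : Perm (Fin 5)) :
    OnlyCe (gmon r n σ) (FF (tau K N) (Lp (fun i => (r i).lv) n) (pr (r 5)) (pr (r 6)) (pr (r 7))
        ((fun i : Fin 5 => pr (r i)) ∘ σ)) := by
  have h0 : (chn r (((r (σ 0) * r 5) * r (σ 3)) * r (σ 4)) n).lv = 0 := chn_lv r _ rfl n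
  have h4 := onlyCe_triple (chn r (((r (σ 0) * r 5) * r (σ 3)) * r (σ 4)) n)
    (r (σ 1) * r 6) (r (σ 2) * r 7) h0 rfl rfl
  have k1 : (chn r (((r (σ 0) * r 5) * r (σ 3)) * r (σ 4)) n).th =
      sc (Lp (fun i => (r i).lv) n * (io (r (σ 4)).lv * io (r (σ 3)).lv))
        (br (pr (r (σ 0))) (pr (r 5))) := by
    rw [chn_th _ _ rfl, mul_th_of _ _ rfl, mul_th_of _ _ rfl, mul_th_br, sc_sc, sc_sc, mul_assoc]
  have k2 : (r (σ 1) * r 6).th = br (pr (r (σ 1))) (pr (r 6)) := rfl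
  have k3 : (r (σ 2) * r 7).th = br (pr (r (σ 2))) (pr (r 7)) := rfl
  rw [k1, k2, k3, T_eq] at h4
  exact h4

/-- the value of `G_n` -/
lemma GG_val (r : ℕ → BB K N L) {n : ℕ} (hn : Even n) :
    OnlyCe (FreeNonUnitalNonAssocAlgebra.lift K r (GG K n))
      (tau K N (outp (Lp (fun i => (r i).lv) n) (pr (r 5)) (pr (r 6)) (pr (r 7))
        (fun i : Fin 5 => pr (r i)))) := by
  rw [lift_GG, ← sum_main (tau K N) ((Lp_par _ n).1 hn) (pr (r 5)) (pr (r 6)) (pr (r 7))
      (fun i : Fin 5 => pr (r i)) (fun i => (r i).mem.1) (fun i => (r i).mem.2.1)]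
  exact OnlyCe.sum _ fun σ => (gmon_val r n σ).smul _

/-- the product is the ordered product up to sign -/
lemma outp_Pp (l : ℕ → (Fin N → K)) (t : ℕ → UU K N) : ∀ n, ∃ c : K, c ≠ 0 ∧
    outp (Lp l n) (l 5, t 5) (l 6, t 6) (l 7, t 7) (fun i : Fin 5 => (l i, t i)) =
      c • Pp l (8 + n)
  | 0 => by
      refine ⟨1, one_ne_zero, ?_⟩
      have h1 : ExteriorAlgebra.ιMulti K 5 (fun i : Fin 5 => l i) =
          io (l 0) * io (l 1) * io (l 2) * io (l 3) * io (l 4) := by
        rw [← Pp_eq l 5]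
        simp [Pp]
      have h2 : IsOd (io (l 0) * io (l 1) * io (l 2) * io (l 3) * io (l 4)) :=
        ((((isOd_io _).mul (isOd_io _)).mul_od (isOd_io _)).mul (isOd_io _)).mul_od (isOd_io _)
      have h3 : IsOd (io (l 5) * io (l 6) * io (l 7)) :=
        ((isOd_io _).mul (isOd_io _)).mul_od (isOd_io _)
      rw [Lp, outp_eq isEv_one]
      change -(1 * (io (l 5) * io (l 6) * io (l 7)) *
        ExteriorAlgebra.ιMulti K 5 (fun i : Fin 5 => l i)) = _
      rw [h1, one_mul, h3.anti h2, neg_neg, one_smul]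
      simp only [Pp, one_mul, mul_assoc]
  | n + 1 => by
      obtain ⟨c, hc, h⟩ := outp_Pp l t n
      refine ⟨c * (-1) ^ (8 + n), mul_ne_zero hc (pow_ne_zero _ (neg_ne_zero.2 one_ne_zero)), ?_⟩
      have h1 : outp (Lp l (n + 1)) (l 5, t 5) (l 6, t 6) (l 7, t 7)
          (fun i : Fin 5 => (l i, t i)) = io (l (8 + n)) *
            outp (Lp l n) (l 5, t 5) (l 6, t 6) (l 7, t 7) (fun i : Fin 5 => (l i, t i)) := by
        simp only [outp, Lp, mul_assoc]
      rw [h1, h, mul_smul_comm, io_mul, eps_Pp, smul_mul_assoc, smul_smul]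
      rfl

end Pool.Agent.X41.Alt3
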