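import Pool.Agent.X41.Alt3.Key
import Pool.Agent.X41.Alt3.Alg

set_option autoImplicit false
set_option linter.unusedSectionVars false

/-!
# The algebras `B(N, L)`
-/

namespace Pool.Agent.X41.Alt3

open Finset Equiv

universe u

section Tau

variable (K : Type u) [Field K] (N : ℕ)

/-- the coefficient of the top form -/
noncomputable def tau : Lam K N →ₗ[K] K :=
  ExteriorAlgebra.liftAlternating
    (Pi.single (M := fun i => (Fin N → K) [⋀^Fin i]→ₗ[K] K) N Matrix.detRowAlternating)

variable {K N}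

lemma tau_same (v : Fin N → (Fin N → K)) :
    tau K N (ExteriorAlgebra.ιMulti K N v) = Matrix.detRowAlternating v := by
  rw [tau, ExteriorAlgebra.liftAlternating_apply_ιMulti, Pi.single_eq_same]

lemma tau_ne {n : ℕ} (h : n ≠ N) (v : Fin n → (Fin N → K)) :
    tau K N (ExteriorAlgebra.ιMulti K n v) = 0 := by
  rw [tau, ExteriorAlgebra.liftAlternating_apply_ιMulti, Pi.single_eq_of_ne h]
  rfl

/-- ordered product of letters -/
noncomputable def Pp (l : ℕ → (Fin N → K)) : ℕ → Lam K N
  | 0 => 1
  | m + 1 => Pp l m * io (l m)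

lemma Pp_eq (l : ℕ → (Fin N → K)) : ∀ m, Pp l m = ExteriorAlgebra.ιMulti K m (fun i => l i)
  | 0 => by rw [ExteriorAlgebra.ιMulti_apply]; simp [Pp]
  | m + 1 => by
      rw [Pp, Pp_eq l m, ExteriorAlgebra.ιMulti_apply, ExteriorAlgebra.ιMulti_apply,
        List.ofFn_succ', List.concat_eq_append, List.prod_append]
      simp [io]

lemma eps_Pp (l : ℕ → (Fin N → K)) : ∀ m, eps (Pp l m) = (-1 : K) ^ m • Pp l m
  | 0 => by simp [Pp]
  | m + 1 => by
      rw [Pp, map_mul, eps_Pp l m, eps_io, pow_succ]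
      simp

/-- the product of the last letters -/
noncomputable def Lp (l : ℕ → (Fin N → K)) : ℕ → Lam K N
  | 0 => 1
  | n + 1 => io (l (8 + n)) * Lp l n

lemma Lp_par (l : ℕ → (Fin N → K)) : ∀ n, (Even n → IsEv (Lp l n)) ∧ (Odd n → IsOd (Lp l n))
  | 0 => ⟨fun _ => isEv_one, fun h => by simp at h⟩
  | n + 1 => by
      obtain ⟨h1, h2⟩ := Lp_par l n
      refine ⟨fun h => ?_, fun h => ?_⟩
      · have : Odd n := by rcases Nat.even_or_odd n with h' | h'
                           · exact absurd h (Nat.not_even_iff_odd.2 (h'.add_one))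
                           · exact h'
        exact (isOd_io _).mul (h2 this)
      · have : Even n := by rcases Nat.even_or_odd n with h' | h'
                            · exact h'
                            · exact absurd h (Nat.not_odd_iff_even.2 (h'.add_one))
        exact (isOd_io _).mul_ev (h1 this)

end Tau

section Dat

variable (K : Type u) [Field K] [CharP K 3] (N : ℕ) (L : Submodule K (Fin N → K))

/-- the action of letters -/
noncomputable def actM : (Fin N → K) →ₗ[K] UU K N →ₗ[K] UU K N :=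
  LinearMap.mk₂ K (fun l u => sc (io l) u)
    (fun l l' u => by funext i; simp only [sc_apply, map_add, add_mul, Pi.add_apply])
    (fun c l u => by funext i; simp only [sc_apply, map_smul, smul_mul_assoc, Pi.smul_apply])
    (fun l u u' => by funext i; simp only [sc_apply, mul_add, Pi.add_apply])
    (fun c l u => by funext i; simp only [sc_apply, mul_smul_comm, Pi.smul_apply])

lemma actM_apply (l : Fin N → K) (u : UU K N) : actM K N l u = sc (io l) u := rfl

/-- the submodule of balanced vectors with letter part in `L` -/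
noncomputable def CC : Submodule K ((Fin N → K) × UU K N) where
  carrier := {x | Bal x.2 ∧ ∑ i, x.2 i = io x.1 ∧ x.1 ∈ L}
  add_mem' := by
    rintro x y ⟨h1, h2, h3⟩ ⟨g1, g2, g3⟩
    refine ⟨fun i => ?_, ?_, L.add_mem h3 g3⟩
    · obtain ⟨a, ha⟩ := h1 i
      obtain ⟨b, hb⟩ := g1 i
      exact ⟨a + b, by rw [Prod.snd_add, Pi.add_apply, ha, hb, add_mul]⟩
    · rw [Prod.snd_add, Prod.fst_add, map_add, ← h2, ← g2, ← Finset.sum_add_distrib]; rfl
  zero_mem' := ⟨fun i => ⟨0, by simp⟩, by simp, L.zero_mem⟩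
  smul_mem' := by
    rintro c x ⟨h1, h2, h3⟩
    refine ⟨fun i => ?_, ?_, L.smul_mem c h3⟩
    · obtain ⟨a, ha⟩ := h1 i
      exact ⟨c • a, by rw [Prod.smul_snd, Pi.smul_apply, ha, smul_mul_assoc]⟩
    · rw [Prod.smul_snd, Prod.smul_fst, map_smul, ← h2, Finset.smul_sum]; rfl

lemma mem_CC (x : (Fin N → K) × UU K N) :
    x ∈ CC K N L ↔ Bal x.2 ∧ ∑ i, x.2 i = io x.1 ∧ x.1 ∈ L := Iff.rfl

/-- the data -/
noncomputable def DD : Dat K (Fin N → K) (UU K N) where
  act := actM K N
  T := TT (tau K N)
  C := CC K N L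
  anti l l' u := by
    funext i
    simp only [actM_apply, sc_apply, Pi.add_apply, Pi.zero_apply, ← mul_assoc, ← add_mul, io_anti,
      zero_mul]
  symm u v w := TT_symm _ u v w
  rel l u v w := TT_rel _ l u v w
  jac x hx y hy z hz := by
    rw [TT_cyc _ hx.1 hy.1 hz.1]
    have : ∑ i, e0 (x.2 i) = 0 := by
      rw [← map_sum, hx.2.1, e0_of_od (isOd_io _)]
    rw [this, zero_mul, zero_mul, mul_zero, map_zero, mul_zero]
  mulC x hx y hy := by
    refine ⟨fun i => ?_, ?_, L.zero_mem⟩
    · obtain ⟨a, ha⟩ := hx.1 i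
      obtain ⟨b, hb⟩ := hy.1 i
      refine ⟨io x.1 * b + io y.1 * a, ?_⟩
      simp only [actM_apply, Pi.add_apply, sc_apply, ha, hb, add_mul, mul_assoc]
    · simp only [actM_apply, Pi.add_apply, sc_apply, Finset.sum_add_distrib, ← Finset.mul_sum,
        hx.2.1, hy.2.1, io_anti, map_zero]

/-- the algebra `B(N, L)` -/
abbrev BB : Type u := Alg (DD K N L)

end Dat

end Pool.Agent.X41.Alt3
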