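import Pool.Agent.X41.Alt3.Perms

set_option autoImplicit false
set_option linter.unusedSectionVars false
set_option linter.unusedSimpArgs false
set_option linter.unusedVariables false

/-!
# The alternating sum over the symmetric group of degree five
-/

namespace Pool.Agent.X41.Alt3

open Finset Equiv

universe u

variable {K : Type u} [Field K] {N : ℕ}

/-- left multiplication of a vector by a scalar of the exterior algebra -/
noncomputable def sc (z : Lam K N) (u : UU K N) : UU K N := fun i => z * u i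

lemma sc_apply (z : Lam K N) (u : UU K N) (i : Fin N) : sc z u i = z * u i := rfl

lemma sc_sc (z z' : Lam K N) (u : UU K N) : sc z (sc z' u) = sc (z * z') u := by
  funext i; simp only [sc_apply, mul_assoc]

lemma sc_add (z : Lam K N) (u u' : UU K N) : sc z (u + u') = sc z u + sc z u' := by
  funext i; simp only [sc_apply, Pi.add_apply, mul_add]

lemma sc_one (u : UU K N) : sc 1 u = u := by
  funext i; simp only [sc_apply, one_mul]

variable [CharP K 3] (τ : Lam K N →ₗ[K] K)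

lemma TT_ev12 {z : Lam K N} (hz : IsEv z) (u v w : UU K N) :
    TT τ (sc z u) v w = TT τ u (sc z v) w := by
  rw [TT_apply, TT_apply]
  refine sum_congr rfl fun i _ => sum_congr rfl fun j _ => sum_congr rfl fun k _ => ?_
  simp only [sc_apply, e0_ev_mul hz, e1_ev_mul hz, mul_assoc]
  have : ∀ a b : Lam K N, z * (a * b) = a * (z * b) := fun a b => by
    rw [← mul_assoc, hz.2, mul_assoc]
  simp only [this (e0 (u i)), this (e1 (u i))]

lemma TT_ev13 {z : Lam K N} (hz : IsEv z) (u v w : UU K N) :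
    TT τ (sc z u) v w = TT τ u v (sc z w) := by
  rw [TT_apply, TT_apply]
  refine sum_congr rfl fun i _ => sum_congr rfl fun j _ => sum_congr rfl fun k _ => ?_
  simp only [sc_apply, e0_ev_mul hz, e1_ev_mul hz, mul_assoc]
  have : ∀ a b : Lam K N, z * (a * b) = a * (z * b) := fun a b => by
    rw [← mul_assoc, hz.2, mul_assoc]
  simp only [this (e0 (u i)), this (e1 (u i)), this (e0 (v j)), this (e1 (v j))]

lemma TT_YY {P Q R : Lam K N} (hP : IsOd P) (hQ : IsOd Q) (hR : IsOd R) (u v w : UU K N) :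
    TT τ (sc P u) (sc Q v) (sc R w) = YY τ (P * Q * R) u v w := by
  rw [TT_apply, YY]
  refine sum_congr rfl fun i _ => sum_congr rfl fun j _ => sum_congr rfl fun k _ => ?_
  have U0 := ev0 (u i)
  have V0 := ev0 (v j)
  have U1 := od1 (u i)
  have V1 := od1 (v j)
  simp only [YS, sc_apply, e0_od_mul hP, e1_od_mul hP, e0_od_mul hQ, e1_od_mul hQ, e0_od_mul hR,
    e1_od_mul hR]
  have a1 : P * e1 (u i) * (Q * e1 (v j)) * (R * e1 (w k)) =
      -(P * Q * R * (e1 (u i) * e1 (v j) * e1 (w k))) := by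
    simp only [mul_assoc]
    rw [V1.swap hR, U1.swap hQ]
    simp only [mul_neg, neg_neg]
    rw [U1.swap hR]
    simp only [mul_neg, neg_neg]
  have a2 : P * e0 (u i) * (Q * e0 (v j)) * (R * e1 (w k)) =
      P * Q * R * (e0 (u i) * e0 (v j) * e1 (w k)) := by
    simp only [mul_assoc]
    rw [V0.swap R, U0.swap Q, U0.swap R]
  have a3 : P * e1 (u i) * (Q * e0 (v j)) * (R * e0 (w k)) =
      P * Q * R * (e1 (u i) * e0 (v j) * e0 (w k)) := by
    simp only [mul_assoc]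
    rw [V0.swap R, U1.swap hQ, U1.swap hR]
    simp only [mul_neg, neg_neg]
  have a4 : P * e0 (u i) * (Q * e1 (v j)) * (R * e0 (w k)) =
      -(P * Q * R * (e0 (u i) * e1 (v j) * e0 (w k))) := by
    simp only [mul_assoc]
    rw [V1.swap hR, U0.swap Q]
    simp only [mul_neg]
    rw [U0.swap R]
  rw [a1, a2, a3, a4]
  simp only [map_neg]
  ring

/-- a letter together with its vector -/
abbrev PV (K : Type u) [Field K] (N : ℕ) : Type u := (Fin N → K) × UU K N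

/-- the sign as an element of the field -/
def sg (K : Type u) [Field K] (σ : Perm (Fin 5)) : K := ((Perm.sign σ : ℤ) : K)

lemma sg_mul (σ ρ : Perm (Fin 5)) : sg K (σ * ρ) = sg K σ * sg K ρ := by
  simp [sg]

/-- the bracket of two letters -/
noncomputable def br (x y : PV K N) : UU K N := sc (io x.1) y.2 + sc (io y.1) x.2

/-- the basic product -/
noncomputable def FF (L : Lam K N) (c6 c7 c8 : PV K N) (b : Fin 5 → PV K N) : K :=
  TT τ (sc (L * (io (b 4).1 * io (b 3).1)) (br (b 0) c6)) (br (b 1) c7) (br (b 2) c8)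

/-- first part -/
noncomputable def Fa (L : Lam K N) (c6 c7 c8 : PV K N) (b : Fin 5 → PV K N) : K :=
  TT τ (sc (L * (io (b 4).1 * io (b 3).1)) (sc (io (b 0).1) c6.2)) (br (b 1) c7) (br (b 2) c8)

/-- second part -/
noncomputable def Fb (L : Lam K N) (c6 c7 c8 : PV K N) (b : Fin 5 → PV K N) : K :=
  TT τ (sc (L * (io (b 4).1 * io (b 3).1)) (sc (io c6.1) (b 0).2)) (sc (io (b 1).1) c7.2)
    (br (b 2) c8)

/-- third part -/
noncomputable def Fc (L : Lam K N) (c6 c7 c8 : PV K N) (b : Fin 5 → PV K N) : K :=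
  TT τ (sc (L * (io (b 4).1 * io (b 3).1)) (sc (io c6.1) (b 0).2)) (sc (io c7.1) (b 1).2)
    (sc (io (b 2).1) c8.2)

/-- fourth part -/
noncomputable def Fd (L : Lam K N) (c6 c7 c8 : PV K N) (b : Fin 5 → PV K N) : K :=
  TT τ (sc (L * (io (b 4).1 * io (b 3).1)) (sc (io c6.1) (b 0).2)) (sc (io c7.1) (b 1).2)
    (sc (io c8.1) (b 2).2)

lemma FF_eq (L : Lam K N) (c6 c7 c8 : PV K N) (b : Fin 5 → PV K N) :
    FF τ L c6 c7 c8 b = Fa τ L c6 c7 c8 b + Fb τ L c6 c7 c8 b + Fc τ L c6 c7 c8 b +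
      Fd τ L c6 c7 c8 b := by
  have h1 : FF τ L c6 c7 c8 b = Fa τ L c6 c7 c8 b +
      TT τ (sc (L * (io (b 4).1 * io (b 3).1)) (sc (io c6.1) (b 0).2)) (br (b 1) c7)
        (br (b 2) c8) := by
    rw [FF, Fa, br, sc_add, map_add, LinearMap.add_apply, LinearMap.add_apply]
  have h2 : TT τ (sc (L * (io (b 4).1 * io (b 3).1)) (sc (io c6.1) (b 0).2)) (br (b 1) c7)
        (br (b 2) c8) = Fb τ L c6 c7 c8 b +
      TT τ (sc (L * (io (b 4).1 * io (b 3).1)) (sc (io c6.1) (b 0).2)) (sc (io c7.1) (b 1).2)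
        (br (b 2) c8) := by
    rw [Fb, br, map_add, LinearMap.add_apply]
  have h3 : TT τ (sc (L * (io (b 4).1 * io (b 3).1)) (sc (io c6.1) (b 0).2))
      (sc (io c7.1) (b 1).2) (br (b 2) c8) = Fc τ L c6 c7 c8 b + Fd τ L c6 c7 c8 b := by
    rw [Fc, Fd, br, map_add]
  rw [h1, h2, h3]
  ring

lemma cyc_prod (L : Lam K N) (x y z : Fin N → K) :
    L * (io x * io y) * io z = L * (io z * io x) * io y := by
  rw [mul_assoc, ((isOd_io x).mul (isOd_io y)).2 (io z)]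
  simp only [mul_assoc]

lemma Fa_inv (L : Lam K N) (c6 c7 c8 : PV K N) (b : Fin 5 → PV K N) :
    Fa τ L c6 c7 c8 (b ∘ (swap 0 3 * swap 3 4 : Perm (Fin 5))) = Fa τ L c6 c7 c8 b := by
  have h0 : (swap 0 3 * swap 3 4 : Perm (Fin 5)) 0 = 3 := by decide
  have h1 : (swap 0 3 * swap 3 4 : Perm (Fin 5)) 1 = 1 := by decide
  have h2 : (swap 0 3 * swap 3 4 : Perm (Fin 5)) 2 = 2 := by decide
  have h3 : (swap 0 3 * swap 3 4 : Perm (Fin 5)) 3 = 4 := by decide
  have h4 : (swap 0 3 * swap 3 4 : Perm (Fin 5)) 4 = 0 := by decide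
  simp only [Fa, Function.comp_apply, h0, h1, h2, h3, h4, sc_sc]
  rw [← cyc_prod L (b 4).1 (b 3).1 (b 0).1]

lemma Fb_inv {L : Lam K N} (hL : IsEv L) (c6 c7 c8 : PV K N) (b : Fin 5 → PV K N) :
    Fb τ L c6 c7 c8 (b ∘ (swap 1 3 * swap 3 4 : Perm (Fin 5))) = Fb τ L c6 c7 c8 b := by
  have h0 : (swap 1 3 * swap 3 4 : Perm (Fin 5)) 0 = 0 := by decide
  have h1 : (swap 1 3 * swap 3 4 : Perm (Fin 5)) 1 = 3 := by decide
  have h2 : (swap 1 3 * swap 3 4 : Perm (Fin 5)) 2 = 2 := by decide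
  have h3 : (swap 1 3 * swap 3 4 : Perm (Fin 5)) 3 = 4 := by decide
  have h4 : (swap 1 3 * swap 3 4 : Perm (Fin 5)) 4 = 1 := by decide
  have hev : ∀ x y : Fin N → K, IsEv (L * (io x * io y)) := fun x y =>
    hL.mul ((isOd_io x).mul (isOd_io y))
  simp only [Fb, Function.comp_apply, h0, h1, h2, h3, h4]
  rw [TT_ev12 τ (hev _ _), TT_ev12 τ (hev _ _), sc_sc, sc_sc, ← cyc_prod L (b 4).1 (b 3).1 (b 1).1]

lemma Fc_inv {L : Lam K N} (hL : IsEv L) (c6 c7 c8 : PV K N) (b : Fin 5 → PV K N) :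
    Fc τ L c6 c7 c8 (b ∘ (swap 2 3 * swap 3 4 : Perm (Fin 5))) = Fc τ L c6 c7 c8 b := by
  have h0 : (swap 2 3 * swap 3 4 : Perm (Fin 5)) 0 = 0 := by decide
  have h1 : (swap 2 3 * swap 3 4 : Perm (Fin 5)) 1 = 1 := by decide
  have h2 : (swap 2 3 * swap 3 4 : Perm (Fin 5)) 2 = 3 := by decide
  have h3 : (swap 2 3 * swap 3 4 : Perm (Fin 5)) 3 = 4 := by decide
  have h4 : (swap 2 3 * swap 3 4 : Perm (Fin 5)) 4 = 2 := by decide
  have hev : ∀ x y : Fin N → K, IsEv (L * (io x * io y)) := fun x y =>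
    hL.mul ((isOd_io x).mul (isOd_io y))
  simp only [Fc, Function.comp_apply, h0, h1, h2, h3, h4]
  rw [TT_ev13 τ (hev _ _), TT_ev13 τ (hev _ _), sc_sc, sc_sc, ← cyc_prod L (b 4).1 (b 3).1 (b 2).1]

lemma sum_inv (H : (Fin 5 → PV K N) → K) (p : Fin 5) (hp3 : p ≠ 3) (hp4 : p ≠ 4)
    (hH : ∀ b, H (b ∘ (swap p 3 * swap 3 4 : Perm (Fin 5))) = H b) (b : Fin 5 → PV K N) :
    ∑ σ : Perm (Fin 5), sg K σ * H (b ∘ σ) = 0 := by
  have d1 : ∀ p : Fin 5, p ≠ 3 → p ≠ 4 → (swap p 3 * swap 3 4 : Perm (Fin 5)) p = 3 := by decide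
  have d2 : ∀ p : Fin 5, p ≠ 3 → p ≠ 4 → (swap p 3 * swap 3 4 : Perm (Fin 5)) 3 = 4 := by decide
  have d3 : ∀ p : Fin 5, p ≠ 3 → p ≠ 4 → (swap p 3 * swap 3 4 : Perm (Fin 5)) 4 = p := by decide
  refine alt3 (fun σ => sg K σ * H (b ∘ σ)) (swap p 3 * swap 3 4) p 3 4 (d1 p hp3 hp4)
    (d2 p hp3 hp4) (d3 p hp3 hp4) hp3 (by decide) hp4 ?_
  · intro σ
    have h1 : sg K (swap p 3 * swap 3 4) = 1 := by
      have : Perm.sign (swap p 3 * swap 3 4) = 1 := by
        rw [Perm.sign_mul, Perm.sign_swap hp3, Perm.sign_swap (by decide)]; rfl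
      simp [sg, this]
    rw [sg_mul, h1, mul_one]
    exact congrArg _ (hH (b ∘ σ))

lemma sum_FF {L : Lam K N} (hL : IsEv L) (c6 c7 c8 : PV K N) (b : Fin 5 → PV K N) :
    ∑ σ : Perm (Fin 5), sg K σ * FF τ L c6 c7 c8 (b ∘ σ) =
      ∑ σ : Perm (Fin 5), sg K σ * Fd τ L c6 c7 c8 (b ∘ σ) := by
  have : ∀ σ : Perm (Fin 5), sg K σ * FF τ L c6 c7 c8 (b ∘ σ) =
      sg K σ * Fa τ L c6 c7 c8 (b ∘ σ) + sg K σ * Fb τ L c6 c7 c8 (b ∘ σ) +
      sg K σ * Fc τ L c6 c7 c8 (b ∘ σ) + sg K σ * Fd τ L c6 c7 c8 (b ∘ σ) := by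
    intro σ; rw [FF_eq]; ring
  rw [Finset.sum_congr rfl fun σ _ => this σ, Finset.sum_add_distrib, Finset.sum_add_distrib,
    Finset.sum_add_distrib]
  rw [sum_inv (Fa τ L c6 c7 c8) 0 (by decide) (by decide) (Fa_inv τ L c6 c7 c8) b,
    sum_inv (Fb τ L c6 c7 c8) 1 (by decide) (by decide) (Fb_inv τ hL c6 c7 c8) b,
    sum_inv (Fc τ L c6 c7 c8) 2 (by decide) (by decide) (Fc_inv τ hL c6 c7 c8) b]
  ring

/-- the ordered product that comes out -/
noncomputable def outp (L : Lam K N) (c6 c7 c8 : PV K N) (b : Fin 5 → PV K N) : Lam K N :=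
  L * (io (b 4).1 * io (b 3).1) * io c6.1 * io c7.1 * io c8.1 *
    (io (b 0).1 * io (b 1).1 * io (b 2).1)

lemma outp_eq {L : Lam K N} (hL : IsEv L) (c6 c7 c8 : PV K N) (b : Fin 5 → PV K N) :
    outp L c6 c7 c8 b = -(L * (io c6.1 * io c7.1 * io c8.1) *
      ExteriorAlgebra.ιMulti K 5 (fun i => (b i).1)) := by
  have h1 : ExteriorAlgebra.ιMulti K 5 (fun i => (b i).1) =
      io (b 0).1 * io (b 1).1 * io (b 2).1 * (io (b 3).1 * io (b 4).1) := by
    rw [ExteriorAlgebra.ιMulti_apply]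
    simp only [List.ofFn_succ, List.ofFn_zero, List.prod_cons, List.prod_nil, mul_one]
    change io (b 0).1 * (io (b 1).1 * (io (b 2).1 * (io (b 3).1 * io (b 4).1))) = _
    simp only [mul_assoc]
  have h2 : io (b 3).1 * io (b 4).1 = -(io (b 4).1 * io (b 3).1) :=
    (isOd_io _).anti (isOd_io _)
  rw [h1, h2, outp, mul_neg, mul_neg, neg_neg]
  have hev : IsEv (io (b 4).1 * io (b 3).1) := (isOd_io _).mul (isOd_io _)
  simp only [mul_assoc] at hev ⊢
  congr 1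
  have e := hev.2 (io c6.1 * (io c7.1 * (io c8.1 * (io (b 0).1 * (io (b 1).1 * io (b 2).1)))))
  simp only [mul_assoc] at e
  exact e

lemma outp_alt {L : Lam K N} (hL : IsEv L) (c6 c7 c8 : PV K N) (b : Fin 5 → PV K N)
    (σ : Perm (Fin 5)) :
    sg K σ * τ (outp L c6 c7 c8 (b ∘ σ)) = τ (outp L c6 c7 c8 b) := by
  rw [outp_eq hL, outp_eq hL]
  have h := AlternatingMap.map_perm (ExteriorAlgebra.ιMulti K 5 (M := Fin N → K))
    (fun i => (b i).1) σ
  have h' : (ExteriorAlgebra.ιMulti K 5 (M := Fin N → K)) (fun i => ((b ∘ σ) i).1) =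
      Perm.sign σ • (ExteriorAlgebra.ιMulti K 5 (M := Fin N → K)) (fun i => (b i).1) := h
  rw [h']
  rcases Int.units_eq_one_or (Perm.sign σ) with hs | hs
  · simp [sg, hs]
  · simp [sg, hs]

/-- **the alternating sum** -/
theorem sum_main {L : Lam K N} (hL : IsEv L) (c6 c7 c8 : PV K N) (b : Fin 5 → PV K N)
    (hB : ∀ i, Bal (b i).2) (hS : ∀ i, ∑ j, (b i).2 j = io (b i).1) :
    ∑ σ : Perm (Fin 5), sg K σ * FF τ L c6 c7 c8 (b ∘ σ) = τ (outp L c6 c7 c8 b) := by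
  have h3 : (3 : K) = 0 := by exact_mod_cast CharP.cast_eq_zero K 3
  rw [sum_FF τ hL, alt6]
  have hd : ∀ b : Fin 5 → PV K N, Fd τ L c6 c7 c8 b =
      YY τ (L * (io (b 4).1 * io (b 3).1) * io c6.1 * io c7.1 * io c8.1) (b 0).2 (b 1).2
        (b 2).2 := by
    intro b
    rw [Fd, sc_sc, TT_YY τ _ (isOd_io _) (isOd_io _)]
    exact (hL.mul ((isOd_io _).mul (isOd_io _))).mul_od (isOd_io _)
  have hone : ∀ i, ∑ j, e1 ((b i).2 j) = io (b i).1 := by
    intro i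
    rw [← map_sum, hS, e1_of_od (isOd_io _)]
  have a0 : swap (0 : Fin 5) 1 0 = 1 := by decide
  have a1 : swap (0 : Fin 5) 1 1 = 0 := by decide
  have a2 : swap (0 : Fin 5) 1 2 = 2 := by decide
  have a3 : swap (0 : Fin 5) 1 3 = 3 := by decide
  have a4 : swap (0 : Fin 5) 1 4 = 4 := by decide
  have b0 : swap (1 : Fin 5) 2 0 = 0 := by decide
  have b1 : swap (1 : Fin 5) 2 1 = 2 := by decide
  have b2 : swap (1 : Fin 5) 2 2 = 1 := by decide
  have b3 : swap (1 : Fin 5) 2 3 = 3 := by decide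
  have b4 : swap (1 : Fin 5) 2 4 = 4 := by decide
  have c0 : swap (0 : Fin 5) 2 0 = 2 := by decide
  have c1 : swap (0 : Fin 5) 2 1 = 1 := by decide
  have c2 : swap (0 : Fin 5) 2 2 = 0 := by decide
  have c3 : swap (0 : Fin 5) 2 3 = 3 := by decide
  have c4 : swap (0 : Fin 5) 2 4 = 4 := by decide
  have d0 : cy 0 = 1 := by decide
  have d1 : cy 1 = 2 := by decide
  have d2 : cy 2 = 0 := by decide
  have d3 : cy 3 = 3 := by decide
  have d4 : cy 4 = 4 := by decide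
  have s1 : sg K (swap 0 1) = -1 := by simp [sg]
  have s2 : sg K (swap 1 2) = -1 := by simp [sg]
  have s3 : sg K (swap 0 2) = -1 := by simp [sg]
  have s4 : sg K cy = 1 := by
    rw [cy, sg_mul, s1, s2]; ring
  have s5 : sg K (cy * cy) = 1 := by rw [sg_mul, s4, mul_one]
  have inner : ∀ σ : Perm (Fin 5),
      sg K σ * Fd τ L c6 c7 c8 (b ∘ σ) +
      sg K (σ * swap 0 1) * Fd τ L c6 c7 c8 (b ∘ (σ * swap 0 1 : Perm (Fin 5))) +
      sg K (σ * swap 1 2) * Fd τ L c6 c7 c8 (b ∘ (σ * swap 1 2 : Perm (Fin 5))) +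
      sg K (σ * swap 0 2) * Fd τ L c6 c7 c8 (b ∘ (σ * swap 0 2 : Perm (Fin 5))) +
      sg K (σ * (cy * cy)) * Fd τ L c6 c7 c8 (b ∘ ⇑(σ * (cy * cy))) +
      sg K (σ * cy) * Fd τ L c6 c7 c8 (b ∘ ⇑(σ * cy)) = -4 * τ (outp L c6 c7 c8 b) := by
    intro σ
    rw [← outp_alt τ hL c6 c7 c8 b σ]
    simp only [hd, sg_mul, s1, s2, s3, s4, s5, Function.comp_apply, Perm.mul_apply, a0, a1, a2, a3,
      a4, b0, b1, b2, b3, b4, c0, c1, c2, c3, c4, d0, d1, d2, d3, d4]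
    have key := YY_alt τ (L * (io (b (σ 4)).1 * io (b (σ 3)).1) * io c6.1 * io c7.1 * io c8.1)
      (hB (σ 0)) (hB (σ 1)) (hB (σ 2))
    rw [hone, hone, hone] at key
    rw [outp]
    simp only [Function.comp_apply]
    linear_combination (sg K σ) * key
  rw [Finset.sum_congr rfl fun σ _ => by rw [inner σ], ← Finset.sum_mul, ← Nat.cast_sum, Pn_card]
  push_cast
  linear_combination (-27 * τ (outp L c6 c7 c8 b)) * h3

end Pool.Agent.X41.Alt3
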