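import Pool.Agent.X41.Alt3.Final

set_option autoImplicit false
set_option linter.unusedSectionVars false

/-!
# The variety generated by the algebras `B(N, L)`, `L` proper
-/

namespace Pool.Agent.X41.Alt3

open Finset Equiv Pool.Agent.X41.Inf3

universe u

section Der

variable {K : Type u} [Field K] {B : Type u} [NonUnitalNonAssocRing B] [Module K B]
  [IsScalarTower K B B] [SMulCommClass K B B]

lemma der_ind (k : ℕ) (P : B → Prop) (h0 : P 0) (hadd : ∀ x y, P x → P y → P (x + y))
    (hsmul : ∀ (c : K) x, P x → P (c • x))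
    (hmul : ∀ x ∈ der K B k, ∀ y ∈ der K B k, P (x * y)) : ∀ p ∈ der K B (k + 1), P p := by
  intro p hp
  have hp' : p ∈ Submodule.span K {t | ∃ x ∈ der K B k, ∃ y ∈ der K B k, x * y = t} := hp
  induction hp' using Submodule.span_induction with
  | mem t ht =>
      obtain ⟨x, hx, y, hy, rfl⟩ := ht
      exact hmul x hx y hy
  | zero => exact h0
  | add x y h1 h2 ih1 ih2 => exact hadd x y (ih1 h1) (ih2 h2)
  | smul c x h1 ih => exact hsmul c x (ih h1)

lemma der_four (h : ∀ a b c d e f g k : B, ((a * b) * (c * d)) * ((e * f) * (g * k)) = 0) :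
    ∀ p ∈ der K B 1, ∀ q ∈ der K B 1, ∀ r ∈ der K B 1, ∀ s ∈ der K B 1,
      (p * q) * (r * s) = 0 := by
  refine der_ind 0 (fun p => ∀ q ∈ der K B 1, ∀ r ∈ der K B 1, ∀ s ∈ der K B 1,
      (p * q) * (r * s) = 0) ?_ ?_ ?_ ?_
  · intro q _ r _ s _; simp
  · intro x y hx hy q hq r hr s hs
    rw [add_mul, add_mul, hx q hq r hr s hs, hy q hq r hr s hs, add_zero]
  · intro c x hx q hq r hr s hs
    rw [smul_mul_assoc, smul_mul_assoc, hx q hq r hr s hs, smul_zero]
  intro a _ b _
  refine der_ind 0 (fun q => ∀ r ∈ der K B 1, ∀ s ∈ der K B 1,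
      ((a * b) * q) * (r * s) = 0) ?_ ?_ ?_ ?_
  · intro r _ s _; simp
  · intro x y hx hy r hr s hs
    rw [mul_add, add_mul, hx r hr s hs, hy r hr s hs, add_zero]
  · intro c x hx r hr s hs
    rw [mul_smul_comm, smul_mul_assoc, hx r hr s hs, smul_zero]
  intro c _ d _
  refine der_ind 0 (fun r => ∀ s ∈ der K B 1,
      ((a * b) * (c * d)) * (r * s) = 0) ?_ ?_ ?_ ?_
  · intro s _; simp
  · intro x y hx hy s hs
    rw [add_mul, mul_add, hx s hs, hy s hs, add_zero]
  · intro c x hx s hs
    rw [smul_mul_assoc, mul_smul_comm, hx s hs, smul_zero]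
  intro e _ f _
  refine der_ind 0 (fun s => ((a * b) * (c * d)) * ((e * f) * s) = 0) ?_ ?_ ?_ ?_
  · simp
  · intro x y hx hy
    rw [mul_add, mul_add, hx, hy, add_zero]
  · intro c x hx
    rw [mul_smul_comm, mul_smul_comm, hx, smul_zero]
  intro g _ k _
  exact h a b c d e f g k

lemma der_three (h : ∀ a b c d e f g k : B, ((a * b) * (c * d)) * ((e * f) * (g * k)) = 0) :
    der K B 3 = ⊥ := by
  have h4 := der_four (K := K) h
  have h2 : ∀ x ∈ der K B 2, ∀ y ∈ der K B 2, x * y = 0 := by
    refine der_ind 1 (fun x => ∀ y ∈ der K B 2, x * y = 0) ?_ ?_ ?_ ?_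
    · intro y _; simp
    · intro x x' hx hx' y hy; rw [add_mul, hx y hy, hx' y hy, add_zero]
    · intro c x hx y hy; rw [smul_mul_assoc, hx y hy, smul_zero]
    intro p hp q hq
    refine der_ind 1 (fun y => p * q * y = 0) ?_ ?_ ?_ ?_
    · simp
    · intro x x' hx hx'; rw [mul_add, hx, hx', add_zero]
    · intro c x hx; rw [mul_smul_comm, hx, smul_zero]
    intro r hr s hs
    exact h4 p hp q hq r hr s hs
  rw [eq_bot_iff]
  intro x hx
  rw [Submodule.mem_bot]
  refine der_ind (K := K) (B := B) 2 (fun x : B => x = (0 : B)) rfl ?_ ?_ h2 x hx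
  · intro x y hx hy
    rw [show x = 0 from hx, show y = 0 from hy, add_zero]
  · intro c x hx
    rw [show x = 0 from hx, smul_zero]

end Der

variable (K : Type u) [Field K] [CharP K 3]

/-- the identities of all the algebras `B(N, L)` with `L` a proper subspace -/
def Idn : Set (FreeNonUnitalNonAssocAlgebra K ℕ) :=
  {f | ∀ (N : ℕ) (L : Submodule K (Fin N → K)), L ≠ ⊤ → IsIdentity K (BB K N L) f}

variable {K} {B : Type u} [NonUnitalNonAssocRing B] [Module K B]
  [IsScalarTower K B B] [SMulCommClass K B B]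

lemma models_comm (hB : Models K (Idn K) B) (x y : B) : x * y = y * x := by
  let v : ℕ → FreeNonUnitalNonAssocAlgebra K ℕ := FreeNonUnitalNonAssocAlgebra.of K
  have := hB (v 0 * v 1 - v 1 * v 0) (by
    intro N L _ r
    simp only [v, map_sub, map_mul, FreeNonUnitalNonAssocAlgebra.lift_of_apply]
    rw [Alg.comm, sub_self]) (fun i => if i = 0 then x else y)
  simp only [v, map_sub, map_mul, FreeNonUnitalNonAssocAlgebra.lift_of_apply] at this
  rw [sub_eq_zero] at this
  simpa using this

lemma models_jacobi (hB : Models K (Idn K) B) (x y z : B) :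
    (x * y) * z + (y * z) * x + (z * x) * y = 0 := by
  let v : ℕ → FreeNonUnitalNonAssocAlgebra K ℕ := FreeNonUnitalNonAssocAlgebra.of K
  have := hB ((v 0 * v 1) * v 2 + (v 1 * v 2) * v 0 + (v 2 * v 0) * v 1) (by
    intro N L _ r
    simp only [v, map_add, map_mul, FreeNonUnitalNonAssocAlgebra.lift_of_apply]
    exact Alg.jacobi _ _ _) (fun i => if i = 0 then x else if i = 1 then y else z)
  simp only [v, map_add, map_mul, FreeNonUnitalNonAssocAlgebra.lift_of_apply] at this
  simpa using this

lemma models_solv (hB : Models K (Idn K) B) (a b c d e f g h : B) :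
    ((a * b) * (c * d)) * ((e * f) * (g * h)) = 0 := by
  let v : ℕ → FreeNonUnitalNonAssocAlgebra K ℕ := FreeNonUnitalNonAssocAlgebra.of K
  have := hB (((v 0 * v 1) * (v 2 * v 3)) * ((v 4 * v 5) * (v 6 * v 7))) (by
    intro N L _ r
    simp only [v, map_mul, FreeNonUnitalNonAssocAlgebra.lift_of_apply]
    exact Alg.solv _ _ _ _ _ _ _ _) (fun i => if i = 0 then a else if i = 1 then b else
      if i = 2 then c else if i = 3 then d else if i = 4 then e else if i = 5 then f else
      if i = 6 then g else h)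
  simp only [v, map_mul, FreeNonUnitalNonAssocAlgebra.lift_of_apply] at this
  simpa using this

lemma models_alt (hB : Models K (Idn K) B) : IsAlternative B :=
  alt_of_jacobi (K := K) (models_comm hB) (models_jacobi hB)

lemma models_jordan (hB : Models K (Idn K) B) : IsJordanAlg B := by
  refine ⟨models_comm hB, fun x y => ?_⟩
  have key : ∀ x y : B, (x * x) * y = x * (x * y) := fun x y =>
    sub_eq_zero.1 ((models_alt hB).1 x y)
  rw [key x y, models_comm hB y x, key x (x * y), models_comm hB _ x]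

lemma GG_mem {n : ℕ} (hn : Even n) : GG K n ∈ Idn K :=
  fun _ _ hL => GG_identity hn (Or.inr hL)

/-- the variety has no finite basis -/
theorem not_fb :
    ¬ ∃ S' : Set (FreeNonUnitalNonAssocAlgebra K ℕ), S'.Finite ∧
      ∀ (B : Type u) [NonUnitalNonAssocRing B] [Module K B] [IsScalarTower K B B]
        [SMulCommClass K B B], Models K S' B ↔ Models K (Idn K) B := by
  classical
  rintro ⟨S', hfin, hS'⟩
  have hsub : ∀ f ∈ S', f ∈ Idn K := by
    intro f hf N L hL
    have h1 : Models K (Idn K) (BB K N L) := fun g hg => hg N L hL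
    exact (hS' _).2 h1 f hf
  -- a common bound for the variables
  obtain ⟨m, hm⟩ : ∃ m, ∀ f ∈ S', ∀ t ∈ f.coeff.support, bdd m t := by
    obtain ⟨m, hm⟩ := exists_bdd_finset (hfin.toFinset.biUnion fun f => f.coeff.support)
    exact ⟨m, fun f hf t ht => hm t (Finset.mem_biUnion.2 ⟨f, hfin.mem_toFinset.2 hf, ht⟩)⟩
  have h2 : Models K S' (BB K (8 + 2 * m) ⊤) := by
    intro f hf
    exact holds_top (by omega : m < 8 + 2 * m) f (hm f hf) fun L hL => hsub f hf _ L hL
  have h3 := (hS' _).1 h2 (GG K (2 * m)) (GG_mem (even_two_mul m))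
  exact GG_not (even_two_mul m) h3

/-- **Main theorem.** -/
theorem main (K : Type u) [Field K] [CharP K 3] :
    ∃ S : Set (FreeNonUnitalNonAssocAlgebra K ℕ),
      (∀ (B : Type u) [NonUnitalNonAssocRing B] [Module K B] [IsScalarTower K B B]
        [SMulCommClass K B B], Models K S B →
          IsAlternative B ∧ IsJordanAlg B ∧ der K B 3 = ⊥) ∧
      ¬ ∃ S' : Set (FreeNonUnitalNonAssocAlgebra K ℕ), S'.Finite ∧
        ∀ (B : Type u) [NonUnitalNonAssocRing B] [Module K B] [IsScalarTower K B B]
          [SMulCommClass K B B], Models K S' B ↔ Models K S B := by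
  refine ⟨Idn K, ?_, not_fb⟩
  intro B _ _ _ _ hB
  exact ⟨models_alt hB, models_jordan hB, der_three (models_solv hB)⟩

end Pool.Agent.X41.Alt3
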