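import Pool.Agent.X41.Alt3.Form2

set_option autoImplicit false

/-!
# Sums over the symmetric group of degree five in characteristic three
-/

namespace Pool.Agent.X41.Alt3

open Finset Equiv

universe u

variable {K : Type u} [Field K]

lemma three_max (x y z : Fin 5) (h1 : x ≠ y) (h2 : y ≠ z) (h3 : x ≠ z) :
    ((if y < x ∧ z < x then 1 else 0) + (if z < y ∧ x < y then 1 else 0) +
      (if x < z ∧ y < z then 1 else 0) : ℕ) = 1 := by
  revert x y z
  decide

/-- a sum over the group of a function invariant under a three-cycle vanishes -/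
lemma alt3 [CharP K 3] (g : Perm (Fin 5) → K) (c : Perm (Fin 5)) (p q r : Fin 5)
    (h1 : c p = q) (h2 : c q = r) (h3 : c r = p) (hpq : p ≠ q) (hqr : q ≠ r) (hpr : p ≠ r)
    (hg : ∀ σ, g (σ * c) = g σ) : ∑ σ, g σ = 0 := by
  have h30 : (3 : K) = 0 := by exact_mod_cast CharP.cast_eq_zero K 3
  let P : Perm (Fin 5) → ℕ := fun σ => if σ q < σ p ∧ σ r < σ p then 1 else 0
  have hP : ∀ σ, P σ + P (σ * c) + P (σ * c * c) = 1 := by
    intro σ
    simp only [P, Perm.mul_apply, h1, h2, h3]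
    have := three_max (σ p) (σ q) (σ r) (σ.injective.ne hpq) (σ.injective.ne hqr)
      (σ.injective.ne hpr)
    omega
  have e1 : ∑ σ, g σ * (P (σ * c) : K) = ∑ σ, g σ * (P σ : K) := by
    rw [← Equiv.sum_comp (Equiv.mulRight c) (fun σ => g σ * (P σ : K))]
    refine sum_congr rfl fun σ _ => ?_
    rw [Equiv.coe_mulRight, hg]
  have e2 : ∑ σ, g σ * (P (σ * c * c) : K) = ∑ σ, g σ * (P σ : K) := by
    rw [← Equiv.sum_comp (Equiv.mulRight (c * c)) (fun σ => g σ * (P σ : K))]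
    refine sum_congr rfl fun σ _ => ?_
    change g σ * _ = g (σ * (c * c)) * (P (σ * (c * c)) : K)
    rw [← mul_assoc σ c c, hg, hg]
  have : ∑ σ, g σ = ∑ σ, (g σ * (P σ : K) + g σ * (P (σ * c) : K) + g σ * (P (σ * c * c) : K)) := by
    refine sum_congr rfl fun σ _ => ?_
    have := congrArg (Nat.cast (R := K)) (hP σ)
    push_cast at this
    linear_combination (-(g σ)) * this
  rw [this, Finset.sum_add_distrib, Finset.sum_add_distrib, e1, e2]
  linear_combination (∑ σ, g σ * (P σ : K)) * h30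

/-- indicator of `σ 0 < σ 1 < σ 2` -/
def Pn (σ : Perm (Fin 5)) : ℕ := if σ 0 < σ 1 ∧ σ 1 < σ 2 then 1 else 0

lemma six_orders (x y z : Fin 5) (h1 : x ≠ y) (h2 : y ≠ z) (h3 : x ≠ z) :
    ((if x < y ∧ y < z then 1 else 0) + (if y < x ∧ x < z then 1 else 0) +
      (if x < z ∧ z < y then 1 else 0) + (if z < y ∧ y < x then 1 else 0) +
      (if y < z ∧ z < x then 1 else 0) + (if z < x ∧ x < y then 1 else 0) : ℕ) = 1 := by
  revert x y z
  decide

/-- the three-cycle `0 → 1 → 2 → 0` -/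
def cy : Perm (Fin 5) := swap 0 1 * swap 1 2

lemma Pn_sum (σ : Perm (Fin 5)) :
    Pn σ + Pn (σ * swap 0 1) + Pn (σ * swap 1 2) + Pn (σ * swap 0 2) + Pn (σ * cy) +
      Pn (σ * (cy * cy)) = 1 := by
  have a0 : swap (0 : Fin 5) 1 0 = 1 := by decide
  have a1 : swap (0 : Fin 5) 1 1 = 0 := by decide
  have a2 : swap (0 : Fin 5) 1 2 = 2 := by decide
  have b0 : swap (1 : Fin 5) 2 0 = 0 := by decide
  have b1 : swap (1 : Fin 5) 2 1 = 2 := by decide
  have b2 : swap (1 : Fin 5) 2 2 = 1 := by decide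
  have c0 : swap (0 : Fin 5) 2 0 = 2 := by decide
  have c1 : swap (0 : Fin 5) 2 1 = 1 := by decide
  have c2 : swap (0 : Fin 5) 2 2 = 0 := by decide
  have d0 : cy 0 = 1 := by decide
  have d1 : cy 1 = 2 := by decide
  have d2 : cy 2 = 0 := by decide
  simp only [Pn, Perm.mul_apply, a0, a1, a2, b0, b1, b2, c0, c1, c2, d0, d1, d2]
  exact six_orders (σ 0) (σ 1) (σ 2) (σ.injective.ne (by decide)) (σ.injective.ne (by decide))
    (σ.injective.ne (by decide))

lemma sum_shift (g : Perm (Fin 5) → K) (τ : Perm (Fin 5)) :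
    ∑ σ, g σ * (Pn (σ * τ) : K) = ∑ σ, (Pn σ : K) * g (σ * τ⁻¹) := by
  rw [← Equiv.sum_comp (Equiv.mulRight τ) (fun σ => (Pn σ : K) * g (σ * τ⁻¹))]
  refine sum_congr rfl fun σ _ => ?_
  rw [Equiv.coe_mulRight, mul_inv_cancel_right, mul_comm]

lemma alt6 (g : Perm (Fin 5) → K) :
    ∑ σ, g σ = ∑ σ, (Pn σ : K) * (g σ + g (σ * swap 0 1) + g (σ * swap 1 2) +
      g (σ * swap 0 2) + g (σ * (cy * cy)) + g (σ * cy)) := by
  have : ∑ σ, g σ = ∑ σ, (g σ * (Pn σ : K) + g σ * (Pn (σ * swap 0 1) : K) +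
      g σ * (Pn (σ * swap 1 2) : K) + g σ * (Pn (σ * swap 0 2) : K) + g σ * (Pn (σ * cy) : K) +
      g σ * (Pn (σ * (cy * cy)) : K)) := by
    refine sum_congr rfl fun σ _ => ?_
    have := congrArg (Nat.cast (R := K)) (Pn_sum σ)
    push_cast at this
    linear_combination (-(g σ)) * this
  rw [this]
  simp only [Finset.sum_add_distrib, mul_add]
  rw [sum_shift, sum_shift, sum_shift, sum_shift, sum_shift]
  have i1 : (swap (0 : Fin 5) 1)⁻¹ = swap 0 1 := by decide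
  have i2 : (swap (1 : Fin 5) 2)⁻¹ = swap 1 2 := by decide
  have i3 : (swap (0 : Fin 5) 2)⁻¹ = swap 0 2 := by decide
  have i4 : (cy)⁻¹ = cy * cy := by decide
  have i5 : (cy * cy)⁻¹ = cy := by decide
  rw [i1, i2, i3, i4, i5]
  congr 5
  refine sum_congr rfl fun σ _ => mul_comm _ _

lemma Pn_card : ∑ σ : Perm (Fin 5), Pn σ = 20 := by
  have h : ∑ σ : Perm (Fin 5), (Pn σ + Pn (σ * swap 0 1) + Pn (σ * swap 1 2) +
      Pn (σ * swap 0 2) + Pn (σ * cy) + Pn (σ * (cy * cy))) = 120 := by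
    rw [Finset.sum_congr rfl fun σ _ => Pn_sum σ]
    simp [Fintype.card_perm, Nat.factorial]
  simp only [Finset.sum_add_distrib] at h
  have e : ∀ τ : Perm (Fin 5), ∑ σ, Pn (σ * τ) = ∑ σ, Pn σ := fun τ =>
    Equiv.sum_comp (Equiv.mulRight τ) Pn
  rw [e, e, e, e, e] at h
  omega

end Pool.Agent.X41.Alt3
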